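import Pool.Agent.Work.TraceProblem.TwoNorm

/-!
# The space of tracial states of a unital C⋆-algebra is compact
-/

open Filter Topology
open scoped ComplexOrder

namespace TraceProblem

theorem compactSpace_tracialState (A : Type*) [CStarAlgebra A] :
    CompactSpace (TracialState A) := by
  set ev : TracialState A → (A → ℂ) := fun τ a => τ a with hev
  have hind : IsInducing ev := ⟨rfl⟩
  rw [← isCompact_univ_iff, hind.isCompact_iff, Set.image_univ]
  have hK : IsCompact (Set.pi Set.univ fun a : A => Metric.closedBall (0 : ℂ) ‖a‖) :=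
    isCompact_univ_pi fun a => isCompact_closedBall _ _
  refine hK.of_isClosed_subset ?_ ?_
  · -- the range is closed
    have hr : Set.range ev = {g : A → ℂ | (∀ a b, g (a + b) = g a + g b) ∧
        (∀ (c : ℂ) a, g (c • a) = c * g a) ∧ g 1 = 1 ∧ (∀ a, g (star a * a) ∈ Set.Ici (0 : ℂ)) ∧
        ∀ a b, g (a * b) = g (b * a)} := by
      ext g
      constructor
      · rintro ⟨τ, rfl⟩
        exact ⟨fun a b => map_add τ.toLin a b, fun c a => map_smul τ.toLin c a, τ.map_one,
          τ.nonneg, τ.tracial⟩
      · rintro ⟨h1, h2, h3, h4, h5⟩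
        exact ⟨⟨⟨⟨g, h1⟩, h2⟩, h3, h4, h5⟩, rfl⟩
    rw [hr]
    simp only [Set.ofPred_and, Set.ofPred_forall]
    refine IsClosed.inter ?_ (IsClosed.inter ?_ (IsClosed.inter ?_ (IsClosed.inter ?_ ?_)))
    · exact isClosed_iInter fun a => isClosed_iInter fun b => isClosed_eq (by fun_prop)
        (by fun_prop)
    · exact isClosed_iInter fun c => isClosed_iInter fun a => isClosed_eq (by fun_prop)
        (by fun_prop)
    · exact isClosed_eq (continuous_apply _) continuous_const
    · exact isClosed_iInter fun a => isClosed_Ici.preimage (continuous_apply (star a * a))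
    · exact isClosed_iInter fun a => isClosed_iInter fun b => isClosed_eq (continuous_apply _)
        (continuous_apply _)
  · rintro _ ⟨τ, rfl⟩ a _
    rw [mem_closedBall_zero_iff]
    exact τ.norm_le a

end TraceProblem
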