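import Pool.Agent.Work.TraceProblem.Compact

/-!
# The uniform tracial completion
-/

open Filter Topology
open scoped ComplexOrder

namespace TraceProblem

variable (A : Type*) [CStarAlgebra A]

/-- The norm-bounded sequences in `A` which are Cauchy for the uniform 2-seminorm, as a
*-subalgebra of the *-algebra of all sequences. -/
def cauchySubalg : StarSubalgebra ℂ (ℕ → A) where
  carrier := {x | (∃ C : ℝ, ∀ n, ‖x n‖ ≤ C) ∧
    ∀ ε > 0, ∃ N, ∀ m ≥ N, ∀ n ≥ N, twoNorm (x m - x n) < ε}
  mul_mem' := by
    rintro x y ⟨⟨C, hC⟩, hx⟩ ⟨⟨D, hD⟩, hy⟩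
    have hC0 : 0 ≤ C := (norm_nonneg _).trans (hC 0)
    have hD0 : 0 ≤ D := (norm_nonneg _).trans (hD 0)
    refine ⟨⟨C * D, fun n => ?_⟩, fun ε hε => ?_⟩
    · exact (norm_mul_le _ _).trans (mul_le_mul (hC n) (hD n) (norm_nonneg _) hC0)
    · obtain ⟨N, hN⟩ := hx (ε / (2 * (D + 1))) (by positivity)
      obtain ⟨M, hM⟩ := hy (ε / (2 * (C + 1))) (by positivity)
      refine ⟨max N M, fun m hm n hn => ?_⟩
      have h1 := hN m (le_of_max_le_left hm) n (le_of_max_le_left hn)
      have h2 := hM m (le_of_max_le_right hm) n (le_of_max_le_right hn)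
      have e : (x * y) m - (x * y) n = (x m - x n) * y m + x n * (y m - y n) := by
        simp only [Pi.mul_apply]
        noncomm_ring
      rw [e]
      have h3 := twoNorm_mul_right (x m - x n) (y m)
      have h4 := twoNorm_mul_left (x n) (y m - y n)
      have h5 := twoNorm_add_le ((x m - x n) * y m) (x n * (y m - y n))
      have h6 : twoNorm (x m - x n) * ‖y m‖ ≤ ε / (2 * (D + 1)) * D :=
        mul_le_mul h1.le (hD m) (norm_nonneg _) (by positivity)
      have h7 : ‖x n‖ * twoNorm (y m - y n) ≤ C * (ε / (2 * (C + 1))) :=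
        mul_le_mul (hC n) h2.le (twoNorm_nonneg _) hC0
      have h8 : ε / (2 * (D + 1)) * D < ε / 2 := by
        rw [div_mul_eq_mul_div, div_lt_div_iff₀ (by positivity) (by positivity)]
        nlinarith
      have h9 : C * (ε / (2 * (C + 1))) < ε / 2 := by
        rw [← mul_div_assoc, div_lt_div_iff₀ (by positivity) (by positivity)]
        nlinarith
      linarith
  add_mem' := by
    rintro x y ⟨⟨C, hC⟩, hx⟩ ⟨⟨D, hD⟩, hy⟩
    refine ⟨⟨C + D, fun n => (norm_add_le _ _).trans (add_le_add (hC n) (hD n))⟩,
      fun ε hε => ?_⟩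
    obtain ⟨N, hN⟩ := hx (ε / 2) (by positivity)
    obtain ⟨M, hM⟩ := hy (ε / 2) (by positivity)
    refine ⟨max N M, fun m hm n hn => ?_⟩
    have h1 := hN m (le_of_max_le_left hm) n (le_of_max_le_left hn)
    have h2 := hM m (le_of_max_le_right hm) n (le_of_max_le_right hn)
    have e : (x + y) m - (x + y) n = (x m - x n) + (y m - y n) := by
      simp only [Pi.add_apply]
      abel
    rw [e]
    have h5 := twoNorm_add_le (x m - x n) (y m - y n)
    linarith
  algebraMap_mem' := by
    intro c
    refine ⟨⟨‖algebraMap ℂ A c‖, fun n => le_of_eq (by rfl)⟩, fun ε hε => ⟨0, fun m _ n _ => ?_⟩⟩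
    have e : (algebraMap ℂ (ℕ → A) c) m - (algebraMap ℂ (ℕ → A) c) n = 0 := sub_self _
    rw [e, twoNorm_zero]
    exact hε
  star_mem' := by
    rintro x ⟨⟨C, hC⟩, hx⟩
    refine ⟨⟨C, fun n => ?_⟩, fun ε hε => ?_⟩
    · rw [Pi.star_apply, norm_star]
      exact hC n
    · obtain ⟨N, hN⟩ := hx ε hε
      refine ⟨N, fun m hm n hn => ?_⟩
      rw [Pi.star_apply, Pi.star_apply, ← star_sub, twoNorm_star]
      exact hN m hm n hn

/-- The *-algebra of the norm-bounded sequences in `A` which are Cauchy for the uniform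
2-seminorm. -/
def CauchySeqs : Type _ := cauchySubalg A

noncomputable instance : Ring (CauchySeqs A) := inferInstanceAs (Ring (cauchySubalg A))

noncomputable instance : StarRing (CauchySeqs A) := inferInstanceAs (StarRing (cauchySubalg A))

noncomputable instance : Algebra ℂ (CauchySeqs A) := inferInstanceAs (Algebra ℂ (cauchySubalg A))

variable {A}

/-- The terms of the sequence. -/
def CauchySeqs.seq (x : CauchySeqs A) : ℕ → A := Subtype.val (p := (· ∈ cauchySubalg A)) x

theorem CauchySeqs.ext' {x y : CauchySeqs A} (h : ∀ n, x.seq n = y.seq n) : x = y :=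
  Subtype.ext (funext h)

theorem seq_add (x y : CauchySeqs A) (n : ℕ) : (x + y).seq n = x.seq n + y.seq n := rfl

theorem seq_sub (x y : CauchySeqs A) (n : ℕ) : (x - y).seq n = x.seq n - y.seq n := rfl

theorem seq_mul (x y : CauchySeqs A) (n : ℕ) : (x * y).seq n = x.seq n * y.seq n := rfl

theorem seq_star (x : CauchySeqs A) (n : ℕ) : (star x).seq n = star (x.seq n) := rfl

theorem seq_one (n : ℕ) : (1 : CauchySeqs A).seq n = 1 := rfl

theorem seq_zero (n : ℕ) : (0 : CauchySeqs A).seq n = 0 := rfl

theorem seq_smul (c : ℂ) (x : CauchySeqs A) (n : ℕ) : (c • x).seq n = c • x.seq n := rfl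

theorem cauchySeqs_bdd (x : CauchySeqs A) : ∃ C : ℝ, ∀ n, ‖x.seq n‖ ≤ C := x.2.1

theorem cauchySeqs_cauchy (x : CauchySeqs A) :
    ∀ ε > 0, ∃ N, ∀ m ≥ N, ∀ n ≥ N, twoNorm (x.seq m - x.seq n) < ε := x.2.2

/-- The 2-seminorms of the terms converge. -/
theorem tendsto_twoNorm (x : CauchySeqs A) :
    Tendsto (fun n => twoNorm (x.seq n)) atTop (𝓝 (limUnder atTop fun n => twoNorm (x.seq n))) := by
  refine CauchySeq.tendsto_limUnder ?_
  rw [Metric.cauchySeq_iff]
  intro ε hε
  obtain ⟨N, hN⟩ := cauchySeqs_cauchy x ε hε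
  refine ⟨N, fun m hm n hn => ?_⟩
  rw [Real.dist_eq]
  exact (abs_twoNorm_sub_le _ _).trans_lt (hN m hm n hn)

variable (A)

/-- The ideal of the sequences which tend to `0` in the uniform 2-seminorm. -/
def nullSeqs : Ideal (CauchySeqs A) where
  carrier := {x | Tendsto (fun n => twoNorm (x.seq n)) atTop (𝓝 0)}
  add_mem' := by
    intro x y hx hy
    refine squeeze_zero (fun n => twoNorm_nonneg _) (fun n => twoNorm_add_le (x.seq n) (y.seq n)) ?_
    simpa using Tendsto.add hx hy
  zero_mem' := by
    refine Tendsto.congr (f₁ := fun _ => (0 : ℝ)) (fun n => ?_) tendsto_const_nhds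
    rw [seq_zero, twoNorm_zero]
  smul_mem' := by
    intro c x hx
    obtain ⟨C, hC⟩ := cauchySeqs_bdd c
    refine squeeze_zero (g := fun n => C * twoNorm (x.seq n)) (fun n => twoNorm_nonneg _)
      (fun n => ?_) ?_
    · refine (twoNorm_mul_left (c.seq n) (x.seq n)).trans ?_
      exact mul_le_mul_of_nonneg_right (hC n) (twoNorm_nonneg _)
    · simpa using Tendsto.const_mul C hx

theorem mem_nullSeqs {x : CauchySeqs A} :
    x ∈ nullSeqs A ↔ Tendsto (fun n => twoNorm (x.seq n)) atTop (𝓝 0) := Iff.rfl

instance : (nullSeqs A).IsTwoSided := ⟨by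
  intro x b hx
  obtain ⟨C, hC⟩ := cauchySeqs_bdd b
  refine squeeze_zero (g := fun n => twoNorm (x.seq n) * C) (fun n => twoNorm_nonneg _)
    (fun n => ?_) ?_
  · refine (twoNorm_mul_right (x.seq n) (b.seq n)).trans ?_
    exact mul_le_mul_of_nonneg_left (hC n) (twoNorm_nonneg _)
  · simpa using Tendsto.mul_const C hx⟩

variable {A} in
theorem star_mem_nullSeqs {x : CauchySeqs A} (hx : x ∈ nullSeqs A) : star x ∈ nullSeqs A := by
  rw [mem_nullSeqs] at hx ⊢
  refine hx.congr fun n => ?_
  rw [seq_star, twoNorm_star]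

/-- The uniform tracial completion of `A` (as a *-algebra): norm-bounded Cauchy sequences modulo
null sequences. -/
def Completion : Type _ := CauchySeqs A ⧸ nullSeqs A

noncomputable instance : Ring (Completion A) := inferInstanceAs (Ring (CauchySeqs A ⧸ nullSeqs A))

noncomputable instance : Algebra ℂ (Completion A) :=
  inferInstanceAs (Algebra ℂ (CauchySeqs A ⧸ nullSeqs A))

variable {A}

/-- The class of a Cauchy sequence in the completion. -/
noncomputable def toCompletion : CauchySeqs A →ₐ[ℂ] Completion A :=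
  Ideal.Quotient.mkₐ ℂ (nullSeqs A)

theorem toCompletion_surjective : Function.Surjective (toCompletion (A := A)) :=
  Ideal.Quotient.mk_surjective

theorem toCompletion_eq {a b : CauchySeqs A} (h : a - b ∈ nullSeqs A) :
    toCompletion a = toCompletion b :=
  (Ideal.Quotient.mk_eq_mk_iff_sub_mem a b).2 h

/-- The involution of the completion, induced by the involution of `A`. -/
noncomputable def starCompletion (x : Completion A) : Completion A :=
  Quotient.liftOn' x (fun a => toCompletion (star a)) fun a b h => by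
    rw [Submodule.quotientRel_def] at h
    refine toCompletion_eq ?_
    rw [← star_sub]
    exact star_mem_nullSeqs h

theorem starCompletion_mk (a : CauchySeqs A) :
    starCompletion (toCompletion a) = toCompletion (star a) :=
  rfl

noncomputable instance : StarRing (Completion A) where
  star := starCompletion
  star_involutive x := by
    obtain ⟨a, rfl⟩ := toCompletion_surjective x
    rw [starCompletion_mk, starCompletion_mk, star_star]
  star_mul x y := by
    obtain ⟨a, rfl⟩ := toCompletion_surjective x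
    obtain ⟨b, rfl⟩ := toCompletion_surjective y
    rw [← map_mul, starCompletion_mk, starCompletion_mk, starCompletion_mk, star_mul, map_mul]
  star_add x y := by
    obtain ⟨a, rfl⟩ := toCompletion_surjective x
    obtain ⟨b, rfl⟩ := toCompletion_surjective y
    rw [← map_add, starCompletion_mk, starCompletion_mk, starCompletion_mk, star_add, map_add]

theorem star_toCompletion (a : CauchySeqs A) : star (toCompletion a) = toCompletion (star a) := rfl

/-- The extension of the uniform 2-seminorm to the completion: the limit of the 2-seminorms of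
the terms of a representing sequence. -/
noncomputable def completionNorm (x : Completion A) : ℝ :=
  Quotient.liftOn' x (fun a => limUnder atTop fun n => twoNorm (a.seq n)) fun a b h => by
    rw [Submodule.quotientRel_def] at h
    have h1 : Tendsto (fun n => twoNorm (a.seq n - b.seq n)) atTop (𝓝 0) := h
    have h2 : Tendsto (fun n => twoNorm (a.seq n) - twoNorm (b.seq n)) atTop (𝓝 0) :=
      squeeze_zero_norm (fun n => abs_twoNorm_sub_le _ _) h1
    have h3 := (tendsto_twoNorm a).sub (tendsto_twoNorm b)
    have h4 := tendsto_nhds_unique h2 h3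
    change limUnder atTop (fun n => twoNorm (a.seq n)) = limUnder atTop fun n => twoNorm (b.seq n)
    linarith

theorem tendsto_completionNorm (a : CauchySeqs A) :
    Tendsto (fun n => twoNorm (a.seq n)) atTop (𝓝 (completionNorm (toCompletion a))) :=
  tendsto_twoNorm a

end TraceProblem
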