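import Pool.Agent.Work.TraceProblem.Completion

/-!
# Tracial states of the quotient *-algebra as traces given on sequences
-/

open Filter Topology
open scoped ComplexOrder

namespace TraceProblem

variable {A : Type*} [CStarAlgebra A]

theorem isCauchy_iff (x : ℕ → A) : IsCauchy x ↔ x ∈ cauchySubalg A := Iff.rfl

/-- The class of a Cauchy sequence. -/
noncomputable def cls (x : ℕ → A) (h : IsCauchy x) : Completion A :=
  toCompletion ((⟨x, h⟩ : cauchySubalg A) : CauchySeqs A)

theorem cls_add {x y : ℕ → A} (hx : IsCauchy x) (hy : IsCauchy y)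
    (h : IsCauchy fun n => x n + y n) : cls (fun n => x n + y n) h = cls x hx + cls y hy := rfl

theorem cls_sub {x y : ℕ → A} (hx : IsCauchy x) (hy : IsCauchy y)
    (h : IsCauchy fun n => x n - y n) : cls (fun n => x n - y n) h = cls x hx - cls y hy := rfl

theorem cls_mul {x y : ℕ → A} (hx : IsCauchy x) (hy : IsCauchy y)
    (h : IsCauchy fun n => x n * y n) : cls (fun n => x n * y n) h = cls x hx * cls y hy := rfl

theorem cls_smul (c : ℂ) {x : ℕ → A} (hx : IsCauchy x)
    (h : IsCauchy fun n => c • x n) : cls (fun n => c • x n) h = c • cls x hx := rfl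

theorem cls_star {x : ℕ → A} (hx : IsCauchy x)
    (h : IsCauchy fun n => star (x n)) : cls (fun n => star (x n)) h = star (cls x hx) := rfl

theorem cls_one (h : IsCauchy fun _ => (1 : A)) : cls (fun _ => (1 : A)) h = 1 := rfl

theorem completionNorm_cls {x : ℕ → A} (hx : IsCauchy x) :
    completionNorm (cls x hx) = seqNorm x := rfl

theorem cls_eq {x y : ℕ → A} (hx : IsCauchy x) (hy : IsCauchy y)
    (h : IsNull fun n => x n - y n) : cls x hx = cls y hy := toCompletion_eq h

theorem isCauchy_add {x y : ℕ → A} (hx : IsCauchy x) (hy : IsCauchy y) :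
    IsCauchy fun n => x n + y n := add_mem (S := StarSubalgebra ℂ (ℕ → A)) (s := cauchySubalg A) hx hy

theorem isCauchy_mul {x y : ℕ → A} (hx : IsCauchy x) (hy : IsCauchy y) :
    IsCauchy fun n => x n * y n := mul_mem (S := StarSubalgebra ℂ (ℕ → A)) (s := cauchySubalg A) hx hy

theorem isCauchy_star {x : ℕ → A} (hx : IsCauchy x) : IsCauchy fun n => star (x n) :=
  star_mem (S := StarSubalgebra ℂ (ℕ → A)) (s := cauchySubalg A) hx

theorem isCauchy_smul (c : ℂ) {x : ℕ → A} (hx : IsCauchy x) : IsCauchy fun n => c • x n :=
  (cauchySubalg A).smul_mem hx c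

theorem isCauchy_one : IsCauchy fun _ => (1 : A) := one_mem (cauchySubalg A)

open Classical in
/-- A tracial state of the quotient *-algebra gives a trace in the sense of `CompletionTrace`. -/
noncomputable def toCompletionTrace (τ : TracialState (Completion A)) : CompletionTrace A where
  val x := if h : IsCauchy x then τ (cls x h) else 0
  well_defined x y hx hy h := by
    rw [dif_pos hx, dif_pos hy, cls_eq hx hy h]
  map_add x y hx hy := by
    rw [dif_pos hx, dif_pos hy, dif_pos (isCauchy_add hx hy), cls_add hx hy, map_add]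
  map_smul c x hx := by
    rw [dif_pos hx, dif_pos (isCauchy_smul c hx), cls_smul c hx, map_smul, smul_eq_mul]
  map_one := by
    rw [dif_pos isCauchy_one, cls_one, τ.map_one]
  nonneg x hx := by
    rw [dif_pos (isCauchy_mul (isCauchy_star hx) hx), cls_mul (isCauchy_star hx) hx,
      cls_star hx]
    exact τ.nonneg _
  tracial x y hx hy := by
    rw [dif_pos (isCauchy_mul hx hy), dif_pos (isCauchy_mul hy hx), cls_mul hx hy, cls_mul hy hx,
      τ.tracial]

theorem toCompletionTrace_val (τ : TracialState (Completion A)) {x : ℕ → A} (hx : IsCauchy x) :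
    (toCompletionTrace τ).val x = τ (cls x hx) := dif_pos hx

end TraceProblem
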