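import Mathlib

/-!
# Definitions for the trace problem for uniform tracial completions
-/

open Filter Topology
open scoped ComplexOrder

namespace TraceProblem

/-- A tracial state on a unital complex *-algebra: a unital linear functional with
`τ(a*a) ≥ 0` and `τ(ab) = τ(ba)`. (On a unital C⋆-algebra a positive linear functional has
norm one if and only if it is unital.) -/
structure TracialState (A : Type*) [Ring A] [StarRing A] [Algebra ℂ A] where
  /-- the linear functional -/
  toLin : A →ₗ[ℂ] ℂ
  map_one : toLin 1 = 1
  nonneg : ∀ a, 0 ≤ toLin (star a * a)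
  tracial : ∀ a b, toLin (a * b) = toLin (b * a)

noncomputable instance (A : Type*) [Ring A] [StarRing A] [Algebra ℂ A] :
    CoeFun (TracialState A) (fun _ => A → ℂ) := ⟨fun τ => τ.toLin⟩

/-- The weak⋆ topology, i.e. the topology of pointwise convergence. -/
noncomputable instance (A : Type*) [Ring A] [StarRing A] [Algebra ℂ A] :
    TopologicalSpace (TracialState A) :=
  TopologicalSpace.induced (fun τ a => τ a) Pi.topologicalSpace

/-- The uniform 2-seminorm `‖a‖ = sup_τ τ(a*a)^(1/2)`, over all tracial states `τ`. -/
noncomputable def twoNorm {A : Type*} [Ring A] [StarRing A] [Algebra ℂ A] (a : A) : ℝ :=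
  ⨆ τ : TracialState A, Real.sqrt (τ (star a * a)).re

section Completion

variable {A : Type*} [CStarAlgebra A]

/-- The sequence is norm-bounded and Cauchy for the uniform 2-seminorm. The elements of the
uniform tracial completion are the classes of these sequences modulo the null ones. -/
def IsCauchy (x : ℕ → A) : Prop :=
  (∃ C : ℝ, ∀ n, ‖x n‖ ≤ C) ∧ ∀ ε > 0, ∃ N, ∀ m ≥ N, ∀ n ≥ N, twoNorm (x m - x n) < ε

/-- The sequence tends to zero in the uniform 2-seminorm. -/
def IsNull (x : ℕ → A) : Prop := Tendsto (fun n => twoNorm (x n)) atTop (𝓝 0)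

/-- The uniform 2-norm of the element of the completion represented by the sequence. -/
noncomputable def seqNorm (x : ℕ → A) : ℝ := limUnder atTop fun n => twoNorm (x n)

variable (A) in
/-- A trace (tracial state) on the uniform tracial completion of `A`. The completion is the
quotient of the *-algebra of the sequences with `IsCauchy` by the ideal of those with `IsNull`,
and the trace is given by its values `val x` on the classes of the sequences `x` with
`IsCauchy x`. -/
structure CompletionTrace where
  /-- the value on the class of a sequence -/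
  val : (ℕ → A) → ℂ
  well_defined : ∀ x y, IsCauchy x → IsCauchy y → IsNull (fun n => x n - y n) → val x = val y
  map_add : ∀ x y, IsCauchy x → IsCauchy y → val (fun n => x n + y n) = val x + val y
  map_smul : ∀ (c : ℂ) x, IsCauchy x → val (fun n => c • x n) = c * val x
  map_one : val (fun _ => 1) = 1
  nonneg : ∀ x, IsCauchy x → 0 ≤ val (fun n => star (x n) * x n)
  tracial : ∀ x y, IsCauchy x → IsCauchy y →
    val (fun n => x n * y n) = val (fun n => y n * x n)

/-- Continuity of a trace on the completion with respect to the uniform 2-norm. -/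
def CompletionTrace.IsContinuous (τ : CompletionTrace A) : Prop :=
  ∀ x, IsCauchy x → ∀ ε > 0, ∃ δ > 0, ∀ y, IsCauchy y → seqNorm (fun n => y n - x n) < δ →
    ‖τ.val y - τ.val x‖ < ε

end Completion

/-- A unital complex *-algebra is subhomogeneous if there is a bound `K` such that the unital
*-representations by matrices of size at most `K` separate its points. -/
def Subhomogeneous (S : Type*) [Ring S] [StarRing S] [Algebra ℂ S] : Prop :=
  ∃ K : ℕ, ∀ a : S, a ≠ 0 → ∃ k ≤ K, ∃ π : S →⋆ₐ[ℂ] Matrix (Fin k) (Fin k) ℂ, π a ≠ 0

/-- A unital C⋆-algebra is locally subhomogeneous if every finite subset is approximately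
contained in a closed subhomogeneous unital *-subalgebra. -/
def LocallySubhomogeneous (A : Type*) [CStarAlgebra A] : Prop :=
  ∀ (F : Finset A) (ε : ℝ), 0 < ε → ∃ S : StarSubalgebra ℂ A, IsClosed (S : Set A) ∧
    Subhomogeneous S ∧ ∀ a ∈ F, ∃ s ∈ S, ‖a - s‖ < ε

end TraceProblem
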