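import Pool.Agent.Work.TraceProblem.ExTraces

/-!
# Limits of the coordinates of Cauchy sequences, and a character of the completion
-/

open Filter Topology BorsukUlamAux
open scoped ComplexOrder ENNReal

namespace TraceProblem.Example

/-! ### Limits of the entries -/

/-- The limit of the entries of a Cauchy sequence. -/
noncomputable def L (a : CauchySeqs Alg) (n : ℕ) (x : X n) (i j : Fin (n + 2)) : ℂ :=
  limUnder atTop fun m => val (a.seq m) n x i j

theorem unif_cauchy (a : CauchySeqs Alg) (n : ℕ) : ∀ ε > 0, ∃ N, ∀ m ≥ N, ∀ m' ≥ N, ∀ (x : X n)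
    (i j : Fin (n + 2)), ‖val (a.seq m) n x i j - val (a.seq m') n x i j‖ < ε := by
  intro ε hε
  have hp : 0 < Real.sqrt ((n : ℝ) + 2) := Real.sqrt_pos.2 (by positivity)
  obtain ⟨N, hN⟩ := cauchySeqs_cauchy a (ε / Real.sqrt ((n : ℝ) + 2)) (div_pos hε hp)
  refine ⟨N, fun m hm m' hm' x i j => ?_⟩
  rw [← val_sub]
  refine (val_le_twoNorm _ n x i j).trans_lt ?_
  have := hN m hm m' hm'
  rw [lt_div_iff₀ hp] at this
  rw [mul_comm]
  exact this

theorem tendsto_L (a : CauchySeqs Alg) (n : ℕ) (x : X n) (i j : Fin (n + 2)) :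
    Tendsto (fun m => val (a.seq m) n x i j) atTop (𝓝 (L a n x i j)) := by
  refine CauchySeq.tendsto_limUnder ?_
  rw [Metric.cauchySeq_iff]
  intro ε hε
  obtain ⟨N, hN⟩ := unif_cauchy a n ε hε
  exact ⟨N, fun m hm m' hm' => by rw [dist_eq_norm]; exact hN m hm m' hm' x i j⟩

theorem continuous_L (a : CauchySeqs Alg) (n : ℕ) (i j : Fin (n + 2)) :
    Continuous fun x => L a n x i j := by
  have h : TendstoUniformly (fun m x => val (a.seq m) n x i j) (fun x => L a n x i j) atTop := by
    rw [Metric.tendstoUniformly_iff]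
    intro ε hε
    obtain ⟨N, hN⟩ := unif_cauchy a n (ε / 2) (by positivity)
    filter_upwards [eventually_ge_atTop N] with m hm x
    have h1 : Tendsto (fun m' => ‖val (a.seq m') n x i j - val (a.seq m) n x i j‖) atTop
        (𝓝 ‖L a n x i j - val (a.seq m) n x i j‖) :=
      ((tendsto_L a n x i j).sub_const _).norm
    have h2 : ‖L a n x i j - val (a.seq m) n x i j‖ ≤ ε / 2 := by
      refine le_of_tendsto h1 ?_
      filter_upwards [eventually_ge_atTop N] with m' hm'
      exact (hN m' hm' m hm x i j).le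
    rw [dist_eq_norm]
    linarith
  exact h.continuous (Frequently.of_forall fun m => continuous_val _ _ _ _)

theorem L_neg (a : CauchySeqs Alg) (n : ℕ) (x : X n) (i j : Fin (n + 2)) :
    L a n (-x) i j = sg i * sg j * L a n x i j := by
  refine tendsto_nhds_unique (tendsto_L a n (-x) i j) ?_
  simp only [val_neg]
  exact (tendsto_L a n x i j).const_mul _

theorem L_add (a b : CauchySeqs Alg) (n : ℕ) (x : X n) (i j : Fin (n + 2)) :
    L (a + b) n x i j = L a n x i j + L b n x i j :=
  tendsto_nhds_unique (tendsto_L (a + b) n x i j) ((tendsto_L a n x i j).add (tendsto_L b n x i j))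

theorem L_smul (c : ℂ) (a : CauchySeqs Alg) (n : ℕ) (x : X n) (i j : Fin (n + 2)) :
    L (c • a) n x i j = c * L a n x i j :=
  tendsto_nhds_unique (tendsto_L (c • a) n x i j) ((tendsto_L a n x i j).const_mul c)

theorem L_mul (a b : CauchySeqs Alg) (n : ℕ) (x : X n) (i j : Fin (n + 2)) :
    L (a * b) n x i j = ∑ l, L a n x i l * L b n x l j :=
  tendsto_nhds_unique (tendsto_L (a * b) n x i j)
    (tendsto_finsetSum _ fun l _ => (tendsto_L a n x i l).mul (tendsto_L b n x l j))

theorem L_star (a : CauchySeqs Alg) (n : ℕ) (x : X n) (i j : Fin (n + 2)) :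
    L (star a) n x i j = star (L a n x j i) :=
  tendsto_nhds_unique (tendsto_L (star a) n x i j) ((tendsto_L a n x j i).star)

theorem L_one (n : ℕ) (x : X n) (i j : Fin (n + 2)) :
    L 1 n x i j = if i = j then 1 else 0 :=
  tendsto_nhds_unique (tendsto_L 1 n x i j) tendsto_const_nhds

theorem L_null {a : CauchySeqs Alg} (ha : a ∈ nullSeqs Alg) (n : ℕ) (x : X n)
    (i j : Fin (n + 2)) : L a n x i j = 0 := by
  refine tendsto_nhds_unique (tendsto_L a n x i j) ?_
  refine squeeze_zero_norm (fun m => val_le_twoNorm (a.seq m) n x i j) ?_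
  have := ((mem_nullSeqs Alg).1 ha).const_mul (Real.sqrt ((n : ℝ) + 2))
  rwa [mul_zero] at this

theorem L_bdd (a : CauchySeqs Alg) : ∃ C : ℝ, ∀ n (x : X n) i j, ‖L a n x i j‖ ≤ C := by
  obtain ⟨C, hC⟩ := cauchySeqs_bdd a
  refine ⟨C, fun n x i j => ?_⟩
  refine le_of_tendsto (tendsto_L a n x i j).norm (Eventually.of_forall fun m => ?_)
  exact (norm_val_le _ _ _ _ _).trans (hC m)

/-! ### The ultrafilter -/

/-- The points `(n, x)` with `n ≥ N` at which the off-diagonal entries in the first row and column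
of all elements of `S` vanish. -/
def good (p : Finset (CauchySeqs Alg) × ℕ) : Set (Σ n, X n) :=
  {z | p.2 ≤ z.1 ∧ ∀ a ∈ p.1, ∀ j : Fin (z.1 + 2), j ≠ 0 → L a z.1 z.2 0 j = 0 ∧
    L a z.1 z.2 j 0 = 0}

theorem good_nonempty (p : Finset (CauchySeqs Alg) × ℕ) : (good p).Nonempty := by
  classical
  obtain ⟨S, N⟩ := p
  set n := max N S.card with hn
  -- the odd real functions
  let f : (S × Fin (n + 1)) × Bool × Bool → X n → ℝ := fun t x =>
    let z : ℂ := if t.2.1 then L t.1.1.1 n x 0 t.1.2.succ else L t.1.1.1 n x t.1.2.succ 0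
    if t.2.2 then z.re else z.im
  have hsg : ∀ j : Fin (n + 1), sg j.succ = -1 := fun j => if_neg (Fin.succ_ne_zero j)
  have hsg0 : sg (0 : Fin (n + 2)) = 1 := if_pos rfl
  have hcont : ∀ t, Continuous (f t) := by
    rintro ⟨⟨a, j⟩, b1, b2⟩
    cases b1 <;> cases b2
    · exact Complex.continuous_im.comp (continuous_L a.1 n j.succ 0)
    · exact Complex.continuous_re.comp (continuous_L a.1 n j.succ 0)
    · exact Complex.continuous_im.comp (continuous_L a.1 n 0 j.succ)
    · exact Complex.continuous_re.comp (continuous_L a.1 n 0 j.succ)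
  have hodd : ∀ t x, f t (-x) = - f t x := by
    rintro ⟨⟨a, j⟩, b1, b2⟩ x
    have h1 : L a.1 n (-x) 0 j.succ = - L a.1 n x 0 j.succ := by
      rw [L_neg, hsg, hsg0]; ring
    have h2 : L a.1 n (-x) j.succ 0 = - L a.1 n x j.succ 0 := by
      rw [L_neg, hsg, hsg0]; ring
    cases b1 <;> cases b2
    · change (L a.1 n (-x) j.succ 0).im = - (L a.1 n x j.succ 0).im
      rw [h2, Complex.neg_im]
    · change (L a.1 n (-x) j.succ 0).re = - (L a.1 n x j.succ 0).re
      rw [h2, Complex.neg_re]
    · change (L a.1 n (-x) 0 j.succ).im = - (L a.1 n x 0 j.succ).im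
      rw [h1, Complex.neg_im]
    · change (L a.1 n (-x) 0 j.succ).re = - (L a.1 n x 0 j.succ).re
      rw [h1, Complex.neg_re]
  have hcard : Fintype.card ((S × Fin (n + 1)) × Bool × Bool) ≤ 4 * (n + 1) * (n + 2) := by
    simp only [Fintype.card_prod, Fintype.card_coe, Fintype.card_fin, Fintype.card_bool]
    have h : S.card ≤ n := le_max_right _ _
    nlinarith
  obtain ⟨x, hx⟩ := borsuk_ulam hcard f hcont hodd
  refine ⟨⟨n, x⟩, le_max_left _ _, ?_⟩
  intro a ha j hj
  obtain ⟨j', rfl⟩ := Fin.exists_succ_eq.2 hj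
  constructor
  · exact Complex.ext (hx ((⟨a, ha⟩, j'), true, true)) (hx ((⟨a, ha⟩, j'), true, false))
  · exact Complex.ext (hx ((⟨a, ha⟩, j'), false, true)) (hx ((⟨a, ha⟩, j'), false, false))

theorem exists_ultrafilter : ∃ U : Ultrafilter (Σ n, X n), ∀ p, good p ∈ U := by
  classical
  have hne : (⨅ p, 𝓟 (good p)).NeBot := by
    refine iInf_neBot_of_directed' ?_ fun p => principal_neBot_iff.2 (good_nonempty p)
    intro p p'
    refine ⟨(p.1 ∪ p'.1, max p.2 p'.2), ?_, ?_⟩
    · refine principal_mono.2 fun z hz => ⟨(le_max_left _ _).trans hz.1, fun a ha => ?_⟩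
      exact hz.2 a (Finset.mem_union_left _ ha)
    · refine principal_mono.2 fun z hz => ⟨(le_max_right _ _).trans hz.1, fun a ha => ?_⟩
      exact hz.2 a (Finset.mem_union_right _ ha)
  refine ⟨Ultrafilter.of (⨅ p, 𝓟 (good p)), fun p => ?_⟩
  exact Ultrafilter.of_le _ (mem_iInf_of_mem p (mem_principal_self _))

/-- An ultrafilter containing all the sets `good p`. -/
noncomputable def U : Ultrafilter (Σ n, X n) := exists_ultrafilter.choose

theorem good_mem_U (p : Finset (CauchySeqs Alg) × ℕ) : good p ∈ U :=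
  exists_ultrafilter.choose_spec p

/-- The upper left entry. -/
noncomputable def corner (a : CauchySeqs Alg) (z : Σ n, X n) : ℂ := L a z.1 z.2 0 0

theorem exists_limit (a : CauchySeqs Alg) : ∃ c, Tendsto (corner a) U (𝓝 c) := by
  obtain ⟨C, hC⟩ := L_bdd a
  have hK : IsCompact (Metric.closedBall (0 : ℂ) C) := isCompact_closedBall _ _
  have h : ((U.map (corner a) : Ultrafilter ℂ) : Filter ℂ) ≤ 𝓟 (Metric.closedBall (0 : ℂ) C) := by
    rw [Ultrafilter.coe_map, le_principal_iff, mem_map]
    refine Filter.univ_mem' fun z => ?_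
    change dist (corner a z) 0 ≤ C
    rw [dist_zero_right]
    exact hC _ _ _ _
  obtain ⟨c, _, hc⟩ := hK.ultrafilter_le_nhds _ h
  exact ⟨c, hc⟩

/-- The limit of the upper left entry along the ultrafilter. -/
noncomputable def chi (a : CauchySeqs Alg) : ℂ := (exists_limit a).choose

theorem tendsto_chi (a : CauchySeqs Alg) : Tendsto (corner a) U (𝓝 (chi a)) :=
  (exists_limit a).choose_spec

theorem chi_eq {a : CauchySeqs Alg} {c : ℂ} (h : Tendsto (corner a) U (𝓝 c)) : chi a = c :=
  tendsto_nhds_unique (tendsto_chi a) h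

theorem chi_add (a b : CauchySeqs Alg) : chi (a + b) = chi a + chi b := by
  refine chi_eq (((tendsto_chi a).add (tendsto_chi b)).congr fun z => ?_)
  exact (L_add a b z.1 z.2 0 0).symm

theorem chi_smul (c : ℂ) (a : CauchySeqs Alg) : chi (c • a) = c * chi a := by
  refine chi_eq (((tendsto_chi a).const_mul c).congr fun z => ?_)
  exact (L_smul c a z.1 z.2 0 0).symm

theorem chi_one : chi 1 = 1 := by
  refine chi_eq (tendsto_const_nhds.congr fun z => ?_)
  change 1 = L 1 z.1 z.2 0 0
  rw [L_one, if_pos rfl]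

theorem chi_star (a : CauchySeqs Alg) : chi (star a) = star (chi a) := by
  refine chi_eq ((tendsto_chi a).star.congr fun z => ?_)
  exact (L_star a z.1 z.2 0 0).symm

theorem chi_mul (a b : CauchySeqs Alg) : chi (a * b) = chi a * chi b := by
  classical
  refine chi_eq (((tendsto_chi a).mul (tendsto_chi b)).congr' ?_)
  filter_upwards [good_mem_U ({a, b}, 0)] with z hz
  change L a z.1 z.2 0 0 * L b z.1 z.2 0 0 = L (a * b) z.1 z.2 0 0
  rw [L_mul, Finset.sum_eq_single 0]
  · intro j _ hj
    rw [(hz.2 a (by simp) j hj).1, zero_mul]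
  · intro h
    exact absurd (Finset.mem_univ _) h

theorem chi_null {a : CauchySeqs Alg} (ha : a ∈ nullSeqs Alg) : chi a = 0 := by
  refine chi_eq (tendsto_const_nhds.congr fun z => ?_)
  exact (L_null ha z.1 z.2 0 0).symm

/-- The character as an algebra homomorphism on the Cauchy sequences. -/
noncomputable def chiHom : CauchySeqs Alg →ₐ[ℂ] ℂ :=
  AlgHom.ofLinearMap
    { toFun := chi
      map_add' := chi_add
      map_smul' := fun c a => chi_smul c a } chi_one chi_mul

/-- The character on the completion. -/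
noncomputable def chiBar : Completion Alg →ₐ[ℂ] ℂ :=
  Ideal.Quotient.liftₐ (nullSeqs Alg) chiHom fun _ ha => chi_null ha

theorem chiBar_mk (a : CauchySeqs Alg) : chiBar (toCompletion a) = chi a := rfl

/-- The character is a tracial state of the completion. -/
noncomputable def tau : TracialState (Completion Alg) where
  toLin := chiBar.toLinearMap
  map_one := map_one chiBar
  nonneg := by
    intro x
    obtain ⟨a, rfl⟩ := toCompletion_surjective x
    change 0 ≤ chiBar (star (toCompletion a) * toCompletion a)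
    have h : chiBar (star (toCompletion a)) = star (chiBar (toCompletion a)) := by
      rw [star_toCompletion, chiBar_mk, chiBar_mk, chi_star]
    rw [map_mul, h]
    exact star_mul_self_nonneg _
  tracial := by
    intro x y
    change chiBar (x * y) = chiBar (y * x)
    rw [map_mul, map_mul, mul_comm]

/-! ### The projections -/

theorem q_sub (m m' m'' : ℕ) (h : m'' ≤ m') : q m m' - q m m'' = q (max m m'') m' := by
  refine coord_ext fun n => ?_
  rw [coord_sub, q_coord, q_coord, q_coord]
  simp only [Finset.mem_Ioc]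
  by_cases h1 : m < n ∧ n ≤ m''
  · rw [if_pos h1, if_pos (by omega), if_neg (by omega), sub_self]
  · rw [if_neg h1, sub_zero]
    by_cases h2 : m < n ∧ n ≤ m'
    · rw [if_pos h2, if_pos (by omega)]
    · rw [if_neg h2, if_neg (by omega)]

theorem tendsto_rate : Tendsto (fun m : ℕ => Real.sqrt (1 / ((m : ℝ) + 3))) atTop (𝓝 0) := by
  have h1 : Tendsto (fun m : ℕ => (m : ℝ) + 3) atTop atTop :=
    tendsto_atTop_add_const_right _ _ tendsto_natCast_atTop_atTop
  have h2 : Tendsto (fun m : ℕ => 1 / ((m : ℝ) + 3)) atTop (𝓝 0) :=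
    tendsto_const_nhds.div_atTop h1
  have h3 := (Real.continuous_sqrt.tendsto 0).comp h2
  rwa [Real.sqrt_zero] at h3

/-- The Cauchy sequence of projections. -/
noncomputable def Q (m : ℕ) : CauchySeqs Alg := (⟨fun m' => q m m', ⟨1, fun n => norm_q_le m n⟩, by
  intro ε hε
  obtain ⟨N, hN⟩ := (tendsto_rate.eventually (gt_mem_nhds hε)).exists_forall_of_atTop
  have key : ∀ m' m'', N ≤ m'' → m'' ≤ m' → twoNorm (q m m' - q m m'') < ε := by
    intro m' m'' h1 h2
    rw [q_sub m m' m'' h2]
    exact (twoNorm_q_le _ _).trans_lt (by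
      have := hN (max m m'') (h1.trans (le_max_right _ _))
      exact this)
  refine ⟨N, fun m' hm' m'' hm'' => ?_⟩
  rcases le_total m'' m' with h | h
  · exact key m' m'' hm'' h
  · change twoNorm (q m m' - q m m'') < ε
    rw [twoNorm_sub_rev]
    exact key m'' m' hm' h⟩ : cauchySubalg Alg)

theorem chi_Q (m : ℕ) : chi (Q m) = 1 := by
  refine chi_eq (tendsto_const_nhds.congr' ?_)
  filter_upwards [good_mem_U (∅, m + 1)] with z hz
  have hz1 : m + 1 ≤ z.1 := hz.1
  refine tendsto_nhds_unique (tendsto_const_nhds.congr' ?_) (tendsto_L (Q m) z.1 z.2 0 0)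
  filter_upwards [eventually_ge_atTop z.1] with m' hm'
  change 1 = ((q m m').1 z.1).ev z.2 0 0
  rw [q_coord, if_pos (Finset.mem_Ioc.2 ⟨by omega, hm'⟩), E_ev]
  simp

/-- The projections in the completion. -/
noncomputable def b (m : ℕ) : Completion Alg := toCompletion (Q m)

theorem b_star (m : ℕ) : star (b m) = b m := by
  rw [b, star_toCompletion]
  congr 1
  exact CauchySeqs.ext' fun m' => q_star m m'

theorem b_mul_self (m : ℕ) : b m * b m = b m := by
  rw [b, ← map_mul]
  congr 1
  exact CauchySeqs.ext' fun m' => q_mul_self m m'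

theorem tau_b (m : ℕ) : tau (b m) = 1 := chi_Q m

theorem completionNorm_b_le (m : ℕ) : completionNorm (b m) ≤ Real.sqrt (1 / (m + 3)) :=
  le_of_tendsto (tendsto_completionNorm (Q m)) (Eventually.of_forall fun m' => twoNorm_q_le m m')

theorem completionNorm_nonneg {A : Type*} [CStarAlgebra A] (x : Completion A) :
    0 ≤ completionNorm x := by
  obtain ⟨a, rfl⟩ := toCompletion_surjective x
  exact ge_of_tendsto (tendsto_completionNorm a) (Eventually.of_forall fun _ => twoNorm_nonneg _)

theorem tendsto_completionNorm_b : Tendsto (fun m => completionNorm (b m)) atTop (𝓝 0) :=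
  squeeze_zero (fun _ => completionNorm_nonneg _) completionNorm_b_le tendsto_rate

instance : Nonempty (TracialState Alg) := ⟨evTr 0 (Classical.arbitrary _)⟩

end TraceProblem.Example
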