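import Pool.Agent.Work.TraceProblem.ExTraces

/-!
# The example is separable and locally subhomogeneous
-/

open Filter Topology BorsukUlamAux
open scoped ComplexOrder ENNReal

namespace TraceProblem

namespace Example

/-- The elements which are scalar from the coordinate `m` on. -/
noncomputable def tailScalar (m : ℕ) : StarSubalgebra ℂ Alg where
  carrier := {a | ∃ c : ℂ, ∀ n ≥ m, a.1 n = algebraMap ℂ (B n) c}
  mul_mem' := by
    rintro a b ⟨c, hc⟩ ⟨d, hd⟩
    refine ⟨c * d, fun n hn => ?_⟩
    rw [coord_mul, hc n hn, hd n hn, map_mul]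
  add_mem' := by
    rintro a b ⟨c, hc⟩ ⟨d, hd⟩
    refine ⟨c + d, fun n hn => ?_⟩
    rw [coord_add, hc n hn, hd n hn, map_add]
  algebraMap_mem' := by
    intro c
    exact ⟨c, fun n _ => rfl⟩
  star_mem' := by
    rintro a ⟨c, hc⟩
    refine ⟨star c, fun n hn => ?_⟩
    rw [coord_star, hc n hn, algebraMap_star_comm]

theorem isClosed_tailScalar (m : ℕ) : IsClosed (tailScalar m : Set Alg) := by
  set x₀ : X m := Classical.arbitrary _
  have h : (tailScalar m : Set Alg) = ⋂ n : ℕ, ⋂ _ : m ≤ n, ⋂ x : X n, ⋂ i, ⋂ j,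
      {a : Alg | val a n x i j = val a m x₀ 0 0 * (if i = j then 1 else 0)} := by
    ext a
    simp only [Set.mem_iInter, SetLike.mem_coe]
    constructor
    · rintro ⟨c, hc⟩ n hn x i j
      change (a.1 n).ev x i j = (a.1 m).ev x₀ 0 0 * (if i = j then 1 else 0)
      rw [hc n hn, hc m le_rfl, ev_algebraMap, ev_algebraMap, if_pos rfl, mul_one]
    · intro h
      refine ⟨val a m x₀ 0 0, fun n hn => B.ext' fun x i j => ?_⟩
      rw [ev_algebraMap]
      exact h n hn x i j
  rw [h]
  refine isClosed_iInter fun n => isClosed_iInter fun _ => isClosed_iInter fun x =>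
    isClosed_iInter fun i => isClosed_iInter fun j => isClosed_eq ?_ ?_
  · exact (continuous_coord n x i j).comp continuous_subtype_val
  · exact ((continuous_coord m x₀ 0 0).comp continuous_subtype_val).mul continuous_const

/-- Evaluation at a point, as a *-representation. -/
noncomputable def rep (m n : ℕ) (x : X n) :
    tailScalar m →⋆ₐ[ℂ] Matrix (Fin (n + 2)) (Fin (n + 2)) ℂ where
  toFun a := Matrix.of fun i j => val a.1 n x i j
  map_one' := rfl
  map_mul' _ _ := rfl
  map_zero' := rfl
  map_add' _ _ := rfl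
  commutes' c := by
    refine Matrix.ext fun i j => ?_
    change (algebraMap ℂ (B n) c).ev x i j = _
    rw [ev_algebraMap, Matrix.algebraMap_matrix_apply]
    by_cases h : i = j
    · rw [if_pos h, if_pos h, mul_one]; rfl
    · rw [if_neg h, if_neg h, mul_zero]
  map_star' _ := rfl

theorem subhomogeneous_tailScalar (m : ℕ) : Subhomogeneous (tailScalar m) := by
  refine ⟨m + 2, fun a ha => ?_⟩
  have h1 : ∃ n, ∃ x : X n, ∃ i j, val a.1 n x i j ≠ 0 := by
    by_contra hcon
    push Not at hcon
    refine ha (Subtype.ext (val_ext fun n x i j => ?_))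
    rw [hcon n x i j]
    rfl
  have h2 : ∃ n ≤ m, ∃ x : X n, ∃ i j, val a.1 n x i j ≠ 0 := by
    obtain ⟨n, x, i, j, h⟩ := h1
    by_cases hn : n ≤ m
    · exact ⟨n, hn, x, i, j, h⟩
    · obtain ⟨c, hc⟩ := a.2
      refine ⟨m, le_rfl, Classical.arbitrary _, 0, 0, ?_⟩
      have h3 : val a.1 n x i j = c * (if i = j then 1 else 0) := by
        change (a.1.1 n).ev x i j = _
        rw [hc n (by omega), ev_algebraMap]
      have h4 : c ≠ 0 := by
        rintro rfl
        rw [zero_mul] at h3
        exact h h3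
      change (a.1.1 m).ev _ 0 0 ≠ 0
      rw [hc m le_rfl, ev_algebraMap, if_pos rfl, mul_one]
      exact h4
  obtain ⟨n, hn, x, i, j, h⟩ := h2
  refine ⟨n + 2, by omega, rep m n x, fun h0 => h ?_⟩
  exact congrFun (congrFun h0 i) j

theorem tailScalar_mono {m m' : ℕ} (h : m ≤ m') {a : Alg} (ha : a ∈ tailScalar m) :
    a ∈ tailScalar m' := by
  obtain ⟨c, hc⟩ := ha
  exact ⟨c, fun n hn => hc n (h.trans hn)⟩

theorem exists_approx (a : Alg) {ε : ℝ} (hε : 0 < ε) : ∃ m, ∃ s ∈ tailScalar m, ‖a - s‖ < ε := by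
  have h : a.1 ∈ closure (evScalar : Set (lp B ∞)) := a.2
  obtain ⟨s, hs, hd⟩ := Metric.mem_closure_iff.1 h ε hε
  have hs' := hs
  obtain ⟨_, c, m, hc⟩ := hs'
  refine ⟨m, ⟨s, StarSubalgebra.le_topologicalClosure _ hs⟩, ⟨c, hc⟩, ?_⟩
  rw [dist_eq_norm] at hd
  exact hd

theorem locallySubhomogeneous : LocallySubhomogeneous Alg := by
  classical
  intro F ε hε
  have h : ∃ m, ∀ a ∈ F, ∃ s ∈ tailScalar m, ‖a - s‖ < ε := by
    induction F using Finset.induction_on with
    | empty => exact ⟨0, by simp⟩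
    | insert a F _ ih =>
      obtain ⟨m, hm⟩ := ih
      obtain ⟨m', s, hs, hd⟩ := exists_approx a hε
      refine ⟨max m m', fun b hb => ?_⟩
      rcases Finset.mem_insert.1 hb with rfl | hb
      · exact ⟨s, tailScalar_mono (le_max_right _ _) hs, hd⟩
      · obtain ⟨t, ht, ht'⟩ := hm b hb
        exact ⟨t, tailScalar_mono (le_max_left _ _) ht, ht'⟩
  obtain ⟨m, hm⟩ := h
  exact ⟨tailScalar m, isClosed_tailScalar m, subhomogeneous_tailScalar m, hm⟩

/-! ### Separability -/

instance (n : ℕ) : SecondCountableTopology (Mat n) :=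
  inferInstanceAs (SecondCountableTopology (Fin (n + 2) → Fin (n + 2) → ℂ))

instance (n : ℕ) : TopologicalSpace.SeparableSpace (B n) :=
  inferInstanceAs (TopologicalSpace.SeparableSpace C(X n, Mat n))

/-- The sequence which is `b n` for `n < m` and the scalar `c` afterwards. -/
noncomputable def glue (m : ℕ) (p : (∀ n : Fin m, B n) × ℂ) : lp B ∞ :=
  ⟨fun n => if h : n < m then p.1 ⟨n, h⟩ else algebraMap ℂ (B n) p.2, by
    refine memℓp_infty ⟨‖p.1‖ + ‖p.2‖, ?_⟩
    rintro _ ⟨n, rfl⟩
    change ‖(if h : n < m then p.1 ⟨n, h⟩ else algebraMap ℂ (B n) p.2)‖ ≤ _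
    split_ifs with h
    · exact (norm_le_pi_norm p.1 ⟨n, h⟩).trans (by have := norm_nonneg p.2; linarith)
    · rw [norm_algebraMap']
      have := norm_nonneg p.1
      linarith⟩

theorem glue_coord (m : ℕ) (p : (∀ n : Fin m, B n) × ℂ) (n : ℕ) :
    glue m p n = if h : n < m then p.1 ⟨n, h⟩ else algebraMap ℂ (B n) p.2 := rfl

theorem continuous_glue (m : ℕ) : Continuous (glue m) := by
  have h : LipschitzWith 1 (glue m) := by
    refine LipschitzWith.of_dist_le_mul fun p p' => ?_
    rw [NNReal.coe_one, one_mul, dist_eq_norm]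
    refine lp.norm_le_of_forall_le dist_nonneg fun n => ?_
    have e : (glue m p - glue m p') n = glue m p n - glue m p' n := rfl
    rw [e, glue_coord, glue_coord]
    split_ifs with h
    · rw [← dist_eq_norm]
      exact (dist_le_pi_dist p.1 p'.1 ⟨n, h⟩).trans (le_max_left _ _)
    · rw [← map_sub, norm_algebraMap', ← dist_eq_norm]
      exact le_max_right _ _
  exact h.continuous

instance : TopologicalSpace.SeparableSpace Alg := by
  have h1 : (evScalar : Set (lp B ∞)) ⊆ ⋃ m, Set.range (glue m) := by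
    rintro a ⟨_, c, m, hc⟩
    refine Set.mem_iUnion.2 ⟨m, (fun n => a n, c), lp.ext (funext fun n => ?_)⟩
    rw [glue_coord]
    split_ifs with h
    · rfl
    · exact (hc n (not_lt.1 h)).symm
  have h2 : TopologicalSpace.IsSeparable (evScalar : Set (lp B ∞)) :=
    (TopologicalSpace.IsSeparable.iUnion fun m =>
      TopologicalSpace.isSeparable_range (continuous_glue m)).mono h1
  have h3 : TopologicalSpace.IsSeparable (alg : Set (lp B ∞)) := h2.closure
  exact h3.separableSpace

end Example

end TraceProblem
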