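import Pool.Agent.Work.TraceProblem.Example

/-!
# Traces of the example
-/

open Filter Topology BorsukUlamAux
open scoped ComplexOrder ENNReal

namespace TraceProblem.Example

/-! ### Elements supported in one coordinate -/

theorem single_mem_alg (n : ℕ) (b : equiv n) : lp.single ∞ n b.1 ∈ alg := by
  refine StarSubalgebra.le_topologicalClosure _ ?_
  refine ⟨fun m => ?_, 0, n + 1, fun m hm => ?_⟩
  · by_cases h : m = n
    · subst h
      rw [lp.single_apply_self]
      exact b.2
    · rw [lp.single_apply_ne _ _ _ h]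
      exact zero_mem _
  · rw [lp.single_apply_ne _ _ _ (by omega), map_zero]

/-- The element of the example supported in one coordinate. -/
noncomputable def inj (n : ℕ) (b : equiv n) : Alg := ⟨lp.single ∞ n b.1, single_mem_alg n b⟩

theorem inj_self (n : ℕ) (b : equiv n) : (inj n b).1 n = b.1 := lp.single_apply_self _ _ _

theorem inj_ne {n m : ℕ} (h : m ≠ n) (b : equiv n) : (inj n b).1 m = 0 :=
  lp.single_apply_ne _ _ _ h

theorem coord_ext {a b : Alg} (h : ∀ n, a.1 n = b.1 n) : a = b :=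
  Subtype.ext (lp.ext (funext h))

theorem coord_mul (a b : Alg) (n : ℕ) : (a * b).1 n = a.1 n * b.1 n := rfl

theorem coord_star (a : Alg) (n : ℕ) : (star a).1 n = star (a.1 n) := rfl

theorem coord_add (a b : Alg) (n : ℕ) : (a + b).1 n = a.1 n + b.1 n := rfl

theorem coord_sub (a b : Alg) (n : ℕ) : (a - b).1 n = a.1 n - b.1 n := rfl

theorem coord_one (n : ℕ) : (1 : Alg).1 n = 1 := rfl

theorem coord_sum {ι : Type*} (s : Finset ι) (f : ι → Alg) (n : ℕ) :
    (∑ i ∈ s, f i).1 n = ∑ i ∈ s, (f i).1 n := by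
  classical
  induction s using Finset.induction_on with
  | empty => rfl
  | insert i s hi ih => rw [Finset.sum_insert hi, Finset.sum_insert hi, coord_add, ih]

theorem inj_mul (n : ℕ) (b c : equiv n) : inj n b * inj n c = inj n (b * c) := by
  refine coord_ext fun m => ?_
  rw [coord_mul]
  by_cases h : m = n
  · subst h
    rw [inj_self, inj_self, inj_self]
    rfl
  · rw [inj_ne h, inj_ne h, inj_ne h, mul_zero]

theorem inj_star (n : ℕ) (b : equiv n) : star (inj n b) = inj n (star b) := by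
  refine coord_ext fun m => ?_
  rw [coord_star]
  by_cases h : m = n
  · subst h
    rw [inj_self, inj_self]
    rfl
  · rw [inj_ne h, inj_ne h, star_zero]

theorem inj_sum {ι : Type*} (s : Finset ι) (n : ℕ) (f : ι → equiv n) :
    ∑ i ∈ s, inj n (f i) = inj n (∑ i ∈ s, f i) := by
  classical
  refine coord_ext fun m => ?_
  rw [coord_sum]
  by_cases h : m = n
  · subst h
    rw [inj_self, Finset.sum_congr rfl fun i _ => inj_self m (f i)]
    exact (map_sum (equiv m).subtype f s).symm
  · rw [inj_ne h, Finset.sum_congr rfl fun i _ => inj_ne h (f i), Finset.sum_const_zero]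

/-! ### Matrix units -/

/-- A continuous function given by its entries. -/
noncomputable def mkB {n : ℕ} (f : X n → Matrix (Fin (n + 2)) (Fin (n + 2)) ℂ)
    (hf : ∀ i j, Continuous fun x => f x i j) : B n :=
  (⟨fun x => CStarMatrix.ofMatrix (f x), continuous_pi fun i => continuous_pi fun j => hf i j⟩ :
    C(X n, Mat n))

theorem mkB_ev {n : ℕ} (f : X n → Matrix (Fin (n + 2)) (Fin (n + 2)) ℂ)
    (hf : ∀ i j, Continuous fun x => f x i j) (x : X n) (i j : Fin (n + 2)) :
    (mkB f hf).ev x i j = f x i j := rfl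

/-- The diagonal matrix units. -/
noncomputable def E (n : ℕ) (k : Fin (n + 2)) : equiv n :=
  ⟨mkB (fun _ i j => if i = k ∧ j = k then 1 else 0) (fun _ _ => continuous_const), by
    intro x i j
    rw [mkB_ev, mkB_ev]
    by_cases h : i = k ∧ j = k
    · rw [if_pos h, h.1, h.2]
      linear_combination - sg_mul_self k
    · rw [if_neg h]
      ring⟩

theorem E_ev (n : ℕ) (k : Fin (n + 2)) (x : X n) (i j : Fin (n + 2)) :
    (E n k).1.ev x i j = if i = k ∧ j = k then 1 else 0 := rfl

/-- The functions `x ↦ x_l e_{0k}`, for `k ≠ 0`. -/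
noncomputable def W (n : ℕ) (k : Fin (n + 2)) (hk : k ≠ 0)
    (l : Fin (4 * (n + 1) * (n + 2) + 1)) : equiv n :=
  ⟨mkB (fun x i j => if i = 0 ∧ j = k then ((x.1 l : ℝ) : ℂ) else 0) (by
    intro i j
    by_cases h : i = 0 ∧ j = k
    · simp only [if_pos h]
      exact Complex.continuous_ofReal.comp
        ((EuclideanSpace.proj l).continuous.comp continuous_subtype_val)
    · simp only [if_neg h]
      exact continuous_const), by
    intro x i j
    rw [mkB_ev, mkB_ev]
    by_cases h : i = 0 ∧ j = k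
    · rw [if_pos h, if_pos h, h.1, h.2]
      have h1 : sg (0 : Fin (n + 2)) = 1 := if_pos rfl
      have h2 : sg k = -1 := if_neg hk
      have h3 : (-x).1 l = - x.1 l := rfl
      rw [h1, h2, h3]
      push_cast
      ring
    · rw [if_neg h, if_neg h]
      ring⟩

theorem W_ev (n : ℕ) (k : Fin (n + 2)) (hk : k ≠ 0) (l : Fin (4 * (n + 1) * (n + 2) + 1))
    (x : X n) (i j : Fin (n + 2)) :
    (W n k hk l).1.ev x i j = if i = 0 ∧ j = k then ((x.1 l : ℝ) : ℂ) else 0 := rfl

theorem sum_sq (n : ℕ) (x : X n) : ∑ l, ((x.1 l : ℝ) : ℂ) * ((x.1 l : ℝ) : ℂ) = 1 := by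
  have h : ‖x.1‖ = 1 := mem_sphere_zero_iff_norm.1 x.2
  have h2 := EuclideanSpace.norm_sq_eq x.1
  rw [h] at h2
  have h3 : ∑ l, (x.1 l) * (x.1 l) = 1 := by
    rw [one_pow] at h2
    refine Eq.trans ?_ h2.symm
    refine Finset.sum_congr rfl fun l _ => ?_
    rw [Real.norm_eq_abs, sq_abs, sq]
  exact_mod_cast h3

theorem sum_ev {n : ℕ} {ι : Type*} (s : Finset ι) (f : ι → equiv n) (x : X n)
    (i j : Fin (n + 2)) : (∑ l ∈ s, f l).1.ev x i j = ∑ l ∈ s, (f l).1.ev x i j := by
  classical
  induction s using Finset.induction_on with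
  | empty => rfl
  | insert l s hl ih => rw [Finset.sum_insert hl, Finset.sum_insert hl, ← ih]; rfl

theorem mul_ev {n : ℕ} (a b : equiv n) (x : X n) (i j : Fin (n + 2)) :
    (a * b).1.ev x i j = ∑ l, a.1.ev x i l * b.1.ev x l j := rfl

theorem star_ev {n : ℕ} (a : equiv n) (x : X n) (i j : Fin (n + 2)) :
    (star a).1.ev x i j = star (a.1.ev x j i) := rfl

theorem equiv_ext {n : ℕ} {a b : equiv n} (h : ∀ x i j, a.1.ev x i j = b.1.ev x i j) : a = b :=
  Subtype.ext (B.ext' h)

theorem sum_W_left (n : ℕ) (k : Fin (n + 2)) (hk : k ≠ 0) :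
    ∑ l, W n k hk l * star (W n k hk l) = E n 0 := by
  refine equiv_ext fun x i j => ?_
  rw [sum_ev, E_ev]
  have h : ∀ l, (W n k hk l * star (W n k hk l)).1.ev x i j =
      (if i = 0 ∧ j = 0 then 1 else 0) * (((x.1 l : ℝ) : ℂ) * ((x.1 l : ℝ) : ℂ)) := by
    intro l
    rw [mul_ev, Finset.sum_eq_single k]
    · rw [star_ev, W_ev, W_ev]
      by_cases hi : i = 0 <;> by_cases hj : j = 0 <;> simp [hi, hj]
    · intro b _ hb
      rw [W_ev, if_neg (fun h => hb h.2), zero_mul]
    · intro h
      exact absurd (Finset.mem_univ _) h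
  rw [Finset.sum_congr rfl fun l _ => h l, ← Finset.mul_sum, sum_sq, mul_one]

theorem sum_W_right (n : ℕ) (k : Fin (n + 2)) (hk : k ≠ 0) :
    ∑ l, star (W n k hk l) * W n k hk l = E n k := by
  refine equiv_ext fun x i j => ?_
  rw [sum_ev, E_ev]
  have h : ∀ l, (star (W n k hk l) * W n k hk l).1.ev x i j =
      (if i = k ∧ j = k then 1 else 0) * (((x.1 l : ℝ) : ℂ) * ((x.1 l : ℝ) : ℂ)) := by
    intro l
    rw [mul_ev, Finset.sum_eq_single 0]
    · rw [star_ev, W_ev, W_ev]
      by_cases hi : i = k <;> by_cases hj : j = k <;> simp [hi, hj]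
    · intro b _ hb
      rw [W_ev n k hk l x b j, if_neg (fun h => hb h.1), mul_zero]
    · intro h
      exact absurd (Finset.mem_univ _) h
  rw [Finset.sum_congr rfl fun l _ => h l, ← Finset.mul_sum, sum_sq, mul_one]

theorem sum_E (n : ℕ) : ∑ k, E n k = 1 := by
  refine equiv_ext fun x i j => ?_
  rw [sum_ev]
  have h1 : ((1 : equiv n).1).ev x i j = if i = j then 1 else 0 := rfl
  rw [h1]
  simp only [E_ev]
  by_cases h : i = j
  · subst h
    rw [if_pos rfl, Finset.sum_eq_single i]
    · simp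
    · intro b _ hb
      rw [if_neg (fun h => hb h.1.symm)]
    · intro h
      exact absurd (Finset.mem_univ _) h
  · rw [if_neg h]
    refine Finset.sum_eq_zero fun k _ => ?_
    rw [if_neg]
    rintro ⟨rfl, rfl⟩
    exact h rfl

/-! ### Every trace is small on the projections `e₀₀` -/

variable (τ : TracialState Alg)

theorem trace_E (n : ℕ) (k : Fin (n + 2)) : τ (inj n (E n k)) = τ (inj n (E n 0)) := by
  by_cases hk : k = 0
  · rw [hk]
  rw [← sum_W_left n k hk, ← sum_W_right n k hk, ← inj_sum, ← inj_sum, map_sum, map_sum]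
  refine Finset.sum_congr rfl fun l _ => ?_
  rw [← inj_mul, ← inj_mul, τ.tracial]

theorem trace_E_zero (n : ℕ) : ((n : ℂ) + 2) * τ (inj n (E n 0)) = τ (inj n 1) := by
  rw [← sum_E n, ← inj_sum, map_sum, Finset.sum_congr rfl fun k _ => trace_E τ n k,
    Finset.sum_const, Finset.card_univ, Fintype.card_fin, nsmul_eq_mul]
  push_cast
  ring

/-- The projection which is `e₀₀` in the coordinates `m < n ≤ m'`. -/
noncomputable def q (m m' : ℕ) : Alg := ∑ n ∈ Finset.Ioc m m', inj n (E n 0)

/-- The projection which is `1` in the coordinates `m < n ≤ m'`. -/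
noncomputable def r (m m' : ℕ) : Alg := ∑ n ∈ Finset.Ioc m m', inj n 1

theorem sum_inj_coord (s : Finset ℕ) (f : ∀ n, equiv n) (n : ℕ) :
    (∑ k ∈ s, inj k (f k)).1 n = if n ∈ s then (f n).1 else 0 := by
  rw [coord_sum]
  by_cases h : n ∈ s
  · rw [if_pos h, Finset.sum_eq_single n]
    · exact inj_self n _
    · intro b _ hb
      exact inj_ne hb.symm _
    · intro h'
      exact absurd h h'
  · rw [if_neg h]
    refine Finset.sum_eq_zero fun k hk => ?_
    refine inj_ne ?_ _
    rintro rfl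
    exact h hk

theorem q_coord (m m' n : ℕ) : (q m m').1 n = if n ∈ Finset.Ioc m m' then (E n 0).1 else 0 :=
  sum_inj_coord _ _ _

theorem r_coord (m m' n : ℕ) : (r m m').1 n = if n ∈ Finset.Ioc m m' then 1 else 0 :=
  sum_inj_coord _ _ _

theorem E_mul_self (n : ℕ) (k : Fin (n + 2)) : E n k * E n k = E n k := by
  refine equiv_ext fun x i j => ?_
  rw [mul_ev, Finset.sum_eq_single k]
  · rw [E_ev, E_ev, E_ev]
    by_cases hi : i = k <;> by_cases hj : j = k <;> simp [hi, hj]
  · intro b _ hb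
    rw [E_ev, if_neg (fun h => hb h.2), zero_mul]
  · intro h
    exact absurd (Finset.mem_univ _) h

theorem E_star (n : ℕ) (k : Fin (n + 2)) : star (E n k) = E n k := by
  refine equiv_ext fun x i j => ?_
  rw [star_ev, E_ev, E_ev]
  by_cases hi : i = k <;> by_cases hj : j = k <;> simp [hi, hj]

theorem q_star (m m' : ℕ) : star (q m m') = q m m' := by
  refine coord_ext fun n => ?_
  rw [coord_star, q_coord]
  split_ifs
  · exact congrArg Subtype.val (E_star n 0)
  · exact star_zero _

theorem q_mul_self (m m' : ℕ) : q m m' * q m m' = q m m' := by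
  refine coord_ext fun n => ?_
  rw [coord_mul, q_coord]
  split_ifs
  · exact congrArg Subtype.val (E_mul_self n 0)
  · exact zero_mul _

theorem one_sub_r (m m' : ℕ) : star (1 - r m m') * (1 - r m m') = 1 - r m m' := by
  refine coord_ext fun n => ?_
  rw [coord_mul, coord_star, coord_sub, coord_one, r_coord]
  split_ifs
  · rw [sub_self, star_zero, mul_zero]
  · rw [sub_zero, star_one, mul_one]

theorem norm_q_le (m m' : ℕ) : ‖q m m'‖ ≤ 1 := by
  have h := CStarRing.norm_star_mul_self (x := q m m')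
  rw [q_star, q_mul_self] at h
  by_contra hlt
  push Not at hlt
  nlinarith

theorem trace_r_le (m m' : ℕ) : (τ (r m m')).re ≤ 1 := by
  have h := τ.nonneg (1 - r m m')
  rw [one_sub_r, map_sub, τ.map_one] at h
  have h2 := (Complex.nonneg_iff.1 h).1
  rw [Complex.sub_re, Complex.one_re] at h2
  linarith

theorem trace_inj_one_nonneg (n : ℕ) : 0 ≤ (τ (inj n 1)).re := by
  have h := τ.nonneg (inj n 1)
  rw [inj_star, inj_mul, star_one, one_mul] at h
  exact (Complex.nonneg_iff.1 h).1

theorem trace_q_le (m m' : ℕ) : (τ (q m m')).re ≤ 1 / (m + 3) := by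
  have h1 : ∀ n ∈ Finset.Ioc m m', (τ (inj n (E n 0))).re ≤ 1 / ((m : ℝ) + 3) * (τ (inj n 1)).re := by
    intro n hn
    have hn' : m + 1 ≤ n := (Finset.mem_Ioc.1 hn).1
    have h2 := congrArg Complex.re (trace_E_zero τ n)
    have h3 : (((n : ℂ) + 2) * τ (inj n (E n 0))).re = ((n : ℝ) + 2) * (τ (inj n (E n 0))).re := by
      have : ((n : ℂ) + 2) = (((n : ℝ) + 2 : ℝ) : ℂ) := by push_cast; ring
      rw [this, Complex.re_ofReal_mul]
    rw [h3] at h2
    have h4 : ((m : ℝ) + 1) ≤ n := by exact_mod_cast hn'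
    have h5 := trace_inj_one_nonneg τ n
    have h6 : 0 ≤ (τ (inj n (E n 0))).re := by
      have : 0 ≤ ((n : ℝ) + 2) * (τ (inj n (E n 0))).re := by rw [h2]; exact h5
      exact nonneg_of_mul_nonneg_right this (by positivity)
    rw [div_mul_eq_mul_div, one_mul, le_div_iff₀ (by positivity), ← h2]
    nlinarith
  have h2 : (τ (q m m')).re = ∑ n ∈ Finset.Ioc m m', (τ (inj n (E n 0))).re := by
    unfold q
    rw [map_sum, Complex.re_sum]
  have h3 : (τ (r m m')).re = ∑ n ∈ Finset.Ioc m m', (τ (inj n 1)).re := by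
    unfold r
    rw [map_sum, Complex.re_sum]
  calc (τ (q m m')).re = ∑ n ∈ Finset.Ioc m m', (τ (inj n (E n 0))).re := h2
    _ ≤ ∑ n ∈ Finset.Ioc m m', 1 / ((m : ℝ) + 3) * (τ (inj n 1)).re := Finset.sum_le_sum h1
    _ = 1 / ((m : ℝ) + 3) * (τ (r m m')).re := by rw [← Finset.mul_sum, h3]
    _ ≤ 1 / ((m : ℝ) + 3) * 1 := by
        have := trace_r_le τ m m'
        gcongr
    _ = 1 / (m + 3) := by ring

theorem twoNorm_q_le (m m' : ℕ) : twoNorm (q m m') ≤ Real.sqrt (1 / (m + 3)) := by
  refine twoNorm_le_of_sq (Real.sqrt_nonneg _) fun τ => ?_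
  rw [Real.sq_sqrt (by positivity)]
  unfold TracialState.sq
  rw [q_star, q_mul_self]
  exact trace_q_le τ m m'

/-! ### Evaluation traces -/

/-- The normalised trace at a point. -/
noncomputable def evTr (n : ℕ) (x : X n) : TracialState Alg where
  toLin :=
    { toFun := fun a => ((n : ℂ) + 2)⁻¹ * ∑ i, val a n x i i
      map_add' := by
        intro a b
        simp only [val_add, Finset.sum_add_distrib, mul_add]
      map_smul' := by
        intro c a
        simp only [val_smul, ← Finset.mul_sum, RingHom.id_apply, smul_eq_mul]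
        ring }
  map_one := by
    change ((n : ℂ) + 2)⁻¹ * ∑ i, val 1 n x i i = 1
    simp only [val_one, if_true, Finset.sum_const, Finset.card_univ, Fintype.card_fin,
      nsmul_eq_mul, mul_one]
    push_cast
    have : (n : ℂ) + 2 ≠ 0 := by exact_mod_cast (by omega : n + 2 ≠ 0)
    exact inv_mul_cancel₀ this
  nonneg := by
    intro a
    change 0 ≤ ((n : ℂ) + 2)⁻¹ * ∑ i, val (star a * a) n x i i
    have h1 : ∀ i, 0 ≤ val (star a * a) n x i i := by
      intro i
      rw [val_mul]
      refine Finset.sum_nonneg fun l _ => ?_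
      rw [val_star]
      exact star_mul_self_nonneg _
    have h2 : (0 : ℂ) ≤ ((n : ℂ) + 2)⁻¹ := by
      have : ((n : ℂ) + 2)⁻¹ = ((((n : ℝ) + 2)⁻¹ : ℝ) : ℂ) := by push_cast; ring
      rw [this]
      exact Complex.zero_le_real.2 (by positivity)
    exact mul_nonneg h2 (Finset.sum_nonneg fun i _ => h1 i)
  tracial := by
    intro a b
    change ((n : ℂ) + 2)⁻¹ * ∑ i, val (a * b) n x i i = ((n : ℂ) + 2)⁻¹ * ∑ i, val (b * a) n x i i
    congr 1
    simp only [val_mul]
    rw [Finset.sum_comm]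
    refine Finset.sum_congr rfl fun i _ => Finset.sum_congr rfl fun j _ => mul_comm _ _

theorem val_le_twoNorm (a : Alg) (n : ℕ) (x : X n) (i j : Fin (n + 2)) :
    ‖val a n x i j‖ ≤ Real.sqrt ((n : ℝ) + 2) * twoNorm a := by
  have h1 := sq_le_twoNorm (evTr n x) a
  have h2 : (evTr n x).sq a = ((n : ℝ) + 2)⁻¹ * ∑ k, ∑ l, ‖val a n x l k‖ ^ 2 := by
    have : (evTr n x) (star a * a) = ((((n : ℝ) + 2)⁻¹ * ∑ k, ∑ l, ‖val a n x l k‖ ^ 2 : ℝ) : ℂ) := by
      change ((n : ℂ) + 2)⁻¹ * ∑ k, val (star a * a) n x k k = _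
      push_cast
      congr 1
      refine Finset.sum_congr rfl fun k _ => ?_
      rw [val_mul]
      refine Finset.sum_congr rfl fun l _ => ?_
      rw [val_star, Complex.star_def, mul_comm, Complex.mul_conj, Complex.normSq_eq_norm_sq]
      push_cast
      ring
    unfold TracialState.sq
    rw [this, Complex.ofReal_re]
  have h3 : ‖val a n x i j‖ ^ 2 ≤ ∑ k, ∑ l, ‖val a n x l k‖ ^ 2 := by
    calc ‖val a n x i j‖ ^ 2 ≤ ∑ l, ‖val a n x l j‖ ^ 2 :=
          Finset.single_le_sum (f := fun l => ‖val a n x l j‖ ^ 2) (fun l _ => by positivity)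
            (Finset.mem_univ i)
      _ ≤ ∑ k, ∑ l, ‖val a n x l k‖ ^ 2 :=
          Finset.single_le_sum (f := fun k => ∑ l, ‖val a n x l k‖ ^ 2)
            (fun k _ => Finset.sum_nonneg fun l _ => by positivity) (Finset.mem_univ j)
  rw [h2] at h1
  have h4 : ‖val a n x i j‖ ^ 2 ≤ ((n : ℝ) + 2) * twoNorm a ^ 2 := by
    refine h3.trans ?_
    have hp : (0 : ℝ) < (n : ℝ) + 2 := by positivity
    rw [inv_mul_le_iff₀ hp] at h1
    exact h1
  rw [← Real.sqrt_sq (norm_nonneg (val a n x i j)), ← Real.sqrt_sq (twoNorm_nonneg a),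
    ← Real.sqrt_mul (by positivity)]
  exact Real.sqrt_le_sqrt h4

end TraceProblem.Example
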