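import Pool.Agent.Work.TraceProblem.Completion
import Pool.Agent.Work.Shared.BorsukUlam.BorsukUlam

/-!
# The example
-/

open Filter Topology BorsukUlamAux
open scoped ComplexOrder ENNReal

namespace TraceProblem

noncomputable instance instCStarAlgebraLp {I : Type*} {A : I → Type*} [∀ i, Nontrivial (A i)]
    [∀ i, CStarAlgebra (A i)] : CStarAlgebra (lp A ∞) where

namespace Example

/-- The C⋆-algebra of complex matrices of size `n + 2`. -/
abbrev Mat (n : ℕ) : Type := CStarMatrix (Fin (n + 2)) (Fin (n + 2)) ℂ

/-- The Euclidean sphere of dimension `4 (n + 1) (n + 2)`. -/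
abbrev X (n : ℕ) : Type := Sph (4 * (n + 1) * (n + 2))

/-- The C⋆-algebra of continuous functions on `X n` with values in the matrices of size `n + 2`. -/
def B (n : ℕ) : Type := C(X n, Mat n)

instance (n : ℕ) : Nonempty (X n) :=
  ((NormedSpace.sphere_nonempty (E := EuclideanSpace ℝ (Fin (4 * (n + 1) * (n + 2) + 1)))
    (x := 0) (r := 1)).2 zero_le_one).to_subtype

noncomputable instance (n : ℕ) : CStarAlgebra (B n) :=
  inferInstanceAs (CStarAlgebra C(X n, Mat n))

instance (n : ℕ) : Nontrivial (B n) := inferInstanceAs (Nontrivial C(X n, Mat n))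

/-- Evaluation of an element of `B n` at a point. -/
noncomputable def B.ev {n : ℕ} (a : B n) (x : X n) : Mat n := (show C(X n, Mat n) from a) x

section ev

variable {n : ℕ} (a b : B n) (c : ℂ) (x : X n) (i j : Fin (n + 2))

theorem ev_mul : (a * b).ev x i j = ∑ l, a.ev x i l * b.ev x l j := rfl

theorem ev_add : (a + b).ev x i j = a.ev x i j + b.ev x i j := rfl

theorem ev_sub : (a - b).ev x i j = a.ev x i j - b.ev x i j := rfl

theorem ev_star : (star a).ev x i j = star (a.ev x j i) := rfl

theorem ev_one : (1 : B n).ev x i j = if i = j then 1 else 0 := rfl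

theorem ev_zero : (0 : B n).ev x i j = 0 := rfl

theorem ev_smul : (c • a).ev x i j = c * a.ev x i j := rfl

theorem ev_algebraMap : (algebraMap ℂ (B n) c).ev x i j = c * (if i = j then 1 else 0) := by
  rw [Algebra.algebraMap_eq_smul_one, ev_smul, ev_one]

theorem norm_ev_le : ‖a.ev x i j‖ ≤ ‖a‖ :=
  (CStarMatrix.norm_entry_le_norm).trans
    (ContinuousMap.norm_coe_le_norm (show C(X n, Mat n) from a) x)

theorem continuous_ev : Continuous fun x => a.ev x i j :=
  (continuous_apply_apply i j).comp (show C(X n, Mat n) from a).continuous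

variable {a b} in
theorem B.ext' (h : ∀ x i j, a.ev x i j = b.ev x i j) : a = b :=
  ContinuousMap.ext fun x => CStarMatrix.ext (h x)

end ev

/-- The sign attached to an index: `U = diag(1, -1, ..., -1)`. -/
def sg {n : ℕ} (i : Fin (n + 2)) : ℂ := if i = 0 then 1 else -1

theorem sg_mul_self {n : ℕ} (i : Fin (n + 2)) : sg i * sg i = 1 := by
  unfold sg
  split_ifs <;> norm_num

theorem sg_star {n : ℕ} (i : Fin (n + 2)) : star (sg i) = sg i := by
  unfold sg
  split_ifs <;> simp

/-- The functions `b` with `b(-x) = U b(x) U*`, `U = diag(1, -1, ..., -1)`. -/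
noncomputable def equiv (n : ℕ) : StarSubalgebra ℂ (B n) where
  carrier := {b | ∀ x i j, b.ev (-x) i j = sg i * sg j * b.ev x i j}
  mul_mem' := by
    intro a b ha hb x i j
    rw [ev_mul, ev_mul, Finset.mul_sum]
    refine Finset.sum_congr rfl fun l _ => ?_
    rw [ha, hb]
    linear_combination (sg i * sg j * a.ev x i l * b.ev x l j) * sg_mul_self l
  add_mem' := by
    intro a b ha hb x i j
    rw [ev_add, ev_add, ha, hb]
    ring
  algebraMap_mem' := by
    intro c x i j
    rw [ev_algebraMap, ev_algebraMap]
    by_cases h : i = j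
    · subst h
      linear_combination (- c * (if i = i then 1 else 0)) * sg_mul_self i
    · rw [if_neg h]
      ring
  star_mem' := by
    intro a ha x i j
    rw [ev_star, ev_star, ha, star_mul, star_mul, sg_star, sg_star]
    ring

/-- The bounded sequences with `n`-th term in `equiv n`, which are eventually equal to a fixed
scalar. -/
noncomputable def evScalar : StarSubalgebra ℂ (lp B ∞) where
  carrier := {a | (∀ n, a n ∈ equiv n) ∧ ∃ c : ℂ, ∃ N, ∀ n ≥ N, a n = algebraMap ℂ (B n) c}
  mul_mem' := by
    rintro a b ⟨ha, c, N, hN⟩ ⟨hb, d, M, hM⟩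
    refine ⟨fun n => mul_mem (ha n) (hb n), c * d, max N M, fun n hn => ?_⟩
    have e : (a * b) n = a n * b n := rfl
    rw [e, hN n (le_of_max_le_left hn), hM n (le_of_max_le_right hn), map_mul]
  add_mem' := by
    rintro a b ⟨ha, c, N, hN⟩ ⟨hb, d, M, hM⟩
    refine ⟨fun n => add_mem (ha n) (hb n), c + d, max N M, fun n hn => ?_⟩
    have e : (a + b) n = a n + b n := rfl
    rw [e, hN n (le_of_max_le_left hn), hM n (le_of_max_le_right hn), map_add]
  algebraMap_mem' := by
    intro c
    exact ⟨fun n => (equiv n).algebraMap_mem c, c, 0, fun n _ => rfl⟩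
  star_mem' := by
    rintro a ⟨ha, c, N, hN⟩
    refine ⟨fun n => star_mem (ha n), star c, N, fun n hn => ?_⟩
    have e : (star a) n = star (a n) := rfl
    rw [e, hN n hn, algebraMap_star_comm]

/-- The norm closure of `evScalar`. -/
noncomputable def alg : StarSubalgebra ℂ (lp B ∞) := evScalar.topologicalClosure

instance : IsClosed (alg : Set (lp B ∞)) := StarSubalgebra.isClosed_topologicalClosure _

/-- The example: the unital C⋆-algebra of the sequences `(b n)` with `b n ∈ equiv n`
and `‖b n - c‖ → 0` for a scalar `c`. -/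
abbrev Alg : Type := alg

noncomputable example : CStarAlgebra Alg := inferInstance

theorem continuous_coord (n : ℕ) (x : X n) (i j : Fin (n + 2)) :
    Continuous fun a : lp B ∞ => (a n).ev x i j := by
  have h : LipschitzWith 1 fun a : lp B ∞ => (a n).ev x i j := by
    refine LipschitzWith.of_dist_le_mul fun a b => ?_
    rw [NNReal.coe_one, one_mul, dist_eq_norm, dist_eq_norm, ← ev_sub]
    refine (norm_ev_le _ _ _ _).trans ?_
    exact lp.norm_apply_le_norm ENNReal.top_ne_zero (a - b) n
  exact h.continuous

/-- Evaluation of an element of the example. -/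
noncomputable def val (a : Alg) (n : ℕ) (x : X n) (i j : Fin (n + 2)) : ℂ := (a.1 n).ev x i j

section val

variable (a b : Alg) (c : ℂ) (n : ℕ) (x : X n) (i j : Fin (n + 2))

theorem val_mul : val (a * b) n x i j = ∑ l, val a n x i l * val b n x l j := rfl

theorem val_add : val (a + b) n x i j = val a n x i j + val b n x i j := rfl

theorem val_sub : val (a - b) n x i j = val a n x i j - val b n x i j := rfl

theorem val_star : val (star a) n x i j = star (val a n x j i) := rfl

theorem val_one : val 1 n x i j = if i = j then 1 else 0 := rfl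

theorem val_smul : val (c • a) n x i j = c * val a n x i j := rfl

theorem norm_val_le : ‖val a n x i j‖ ≤ ‖a‖ :=
  (norm_ev_le _ _ _ _).trans (lp.norm_apply_le_norm ENNReal.top_ne_zero a.1 n)

theorem continuous_val : Continuous fun x => val a n x i j := continuous_ev _ _ _

theorem val_neg : val a n (-x) i j = sg i * sg j * val a n x i j := by
  have h : IsClosed {a : lp B ∞ | (a n).ev (-x) i j = sg i * sg j * (a n).ev x i j} :=
    isClosed_eq (continuous_coord _ _ _ _) (continuous_const.mul (continuous_coord _ _ _ _))
  have h2 : (alg : Set (lp B ∞)) ⊆ {a : lp B ∞ | (a n).ev (-x) i j =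
      sg i * sg j * (a n).ev x i j} :=
    closure_minimal (fun b hb => hb.1 n x i j) h
  exact h2 a.2

variable {a b} in
theorem val_ext (h : ∀ n x i j, val a n x i j = val b n x i j) : a = b :=
  Subtype.ext (lp.ext (funext fun n => B.ext' (h n)))

end val

end Example

end TraceProblem
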