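import Pool.Agent.Work.TraceProblem.Convert
import Pool.Agent.Work.TraceProblem.ExLimit
import Pool.Agent.Work.TraceProblem.ExNuclear

/-!
# The discontinuous trace
-/

open Filter Topology
open scoped ComplexOrder

namespace TraceProblem.Example

/-- The trace of the completion, as a functional on Cauchy sequences. -/
noncomputable def trace : CompletionTrace Alg := toCompletionTrace tau

theorem isCauchy_q (m : ℕ) : IsCauchy (q m) := (Q m).2

theorem trace_q (m : ℕ) : trace.val (q m) = 1 := by
  rw [trace, toCompletionTrace_val _ (isCauchy_q m)]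
  exact tau_b m

theorem tendsto_seqNorm_q : Tendsto (fun m => seqNorm (q m)) atTop (𝓝 0) :=
  tendsto_completionNorm_b

theorem isCauchy_zero : IsCauchy fun _ => (0 : Alg) := zero_mem (cauchySubalg Alg)

theorem trace_zero : trace.val (fun _ => (0 : Alg)) = 0 := by
  have h := trace.map_smul 0 (fun _ => (0 : Alg)) isCauchy_zero
  simpa using h

theorem trace_not_continuous : ¬ trace.IsContinuous := by
  intro h
  obtain ⟨δ, hδ, h⟩ := h _ isCauchy_zero 1 one_pos
  obtain ⟨m, hm⟩ := (tendsto_seqNorm_q.eventually (gt_mem_nhds hδ)).exists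
  have h1 := h (q m) (isCauchy_q m) (by simpa using hm)
  rw [trace_q, trace_zero, sub_zero, norm_one] at h1
  exact lt_irrefl _ h1

end TraceProblem.Example
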