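import Pool.Agent.Work.TraceProblem.Defs

/-!
# Tracial states and the uniform 2-seminorm
-/

open Filter Topology
open scoped ComplexOrder

namespace TraceProblem

namespace TracialState

variable {A : Type*} [CStarAlgebra A] (τ : TracialState A)

theorem ext' {τ τ' : TracialState A} (h : ∀ a, τ a = τ' a) : τ = τ' := by
  cases τ; cases τ'
  congr
  exact LinearMap.ext h

/-- The value `τ(a*a)` as a real number. -/
noncomputable def sq (a : A) : ℝ := (τ (star a * a)).re

theorem sq_nonneg (a : A) : 0 ≤ τ.sq a := (Complex.nonneg_iff.1 (τ.nonneg a)).1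

theorem eq_sq (a : A) : τ (star a * a) = (τ.sq a : ℂ) := by
  have h := (Complex.nonneg_iff.1 (τ.nonneg a)).2
  refine Complex.ext ?_ ?_
  · rw [Complex.ofReal_re]; rfl
  · rw [Complex.ofReal_im]; exact h.symm

theorem sq_star (a : A) : τ.sq (star a) = τ.sq a := by
  unfold sq
  rw [star_star, τ.tracial]

theorem sq_smul (c : ℂ) (a : A) : τ.sq (c • a) = ‖c‖ ^ 2 * τ.sq a := by
  have h : star (c • a) * (c • a) = (star c * c) • (star a * a) := by
    rw [star_smul, smul_mul_smul_comm]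
  unfold sq
  rw [h, map_smul]
  have h2 : star c * c = ((‖c‖ ^ 2 : ℝ) : ℂ) := by
    rw [Complex.star_def, mul_comm, Complex.mul_conj, Complex.normSq_eq_norm_sq]
  rw [h2, smul_eq_mul, Complex.re_ofReal_mul]

theorem sq_neg (a : A) : τ.sq (-a) = τ.sq a := by
  unfold sq
  rw [star_neg, neg_mul_neg]

section Order

attribute [local instance] CStarAlgebra.spectralOrder CStarAlgebra.spectralOrderedRing

theorem map_nonneg {a : A} (ha : 0 ≤ a) : 0 ≤ τ a := by
  obtain ⟨b, rfl⟩ := CStarAlgebra.nonneg_iff_eq_star_mul_self.1 ha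
  exact τ.nonneg b

theorem re_mono {a b : A} (h : a ≤ b) : (τ a).re ≤ (τ b).re := by
  have h1 := τ.map_nonneg (sub_nonneg.2 h)
  rw [map_sub] at h1
  have h2 := (Complex.nonneg_iff.1 h1).1
  rw [Complex.sub_re] at h2
  linarith

theorem sq_mul_le (a b : A) : τ.sq (a * b) ≤ ‖a‖ ^ 2 * τ.sq b := by
  have h1 : star a * a ≤ algebraMap ℝ A (‖a‖ ^ 2) := by
    have := CStarAlgebra.star_mul_le_algebraMap_norm_sq (a := a)
    exact this
  have h2 : star b * (star a * a) * b ≤ star b * algebraMap ℝ A (‖a‖ ^ 2) * b :=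
    star_left_conjugate_le_conjugate h1 b
  have h3 := τ.re_mono h2
  have e1 : star b * (star a * a) * b = star (a * b) * (a * b) := by
    rw [star_mul]; simp only [mul_assoc]
  have e2 : star b * algebraMap ℝ A (‖a‖ ^ 2) * b = ((‖a‖ ^ 2 : ℝ) : ℂ) • (star b * b) := by
    rw [Algebra.algebraMap_eq_smul_one, mul_smul_comm, mul_one, smul_mul_assoc]
    exact (Complex.coe_smul _ _).symm
  rw [e1, e2, map_smul, smul_eq_mul, Complex.re_ofReal_mul] at h3
  exact h3

theorem sq_le (a : A) : τ.sq a ≤ ‖a‖ ^ 2 := by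
  have h := τ.sq_mul_le a 1
  have h1 : τ.sq 1 = 1 := by
    unfold sq
    rw [star_one, one_mul, τ.map_one, Complex.one_re]
  rwa [mul_one, h1, mul_one] at h

/-- Triangle inequality with a parameter. -/
theorem sq_add_le (a b : A) {t : ℝ} (ht : 0 < t) :
    τ.sq (a + b) ≤ (1 + t) * τ.sq a + (1 + t⁻¹) * τ.sq b := by
  set s : ℝ := Real.sqrt t with hs
  have hs0 : 0 < s := Real.sqrt_pos.2 ht
  have hss : s * s = t := Real.mul_self_sqrt ht.le
  have h := τ.sq_nonneg ((s : ℂ) • a - ((s⁻¹ : ℝ) : ℂ) • b)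
  have e : star ((s : ℂ) • a - ((s⁻¹ : ℝ) : ℂ) • b) * ((s : ℂ) • a - ((s⁻¹ : ℝ) : ℂ) • b) +
      star (a + b) * (a + b) =
      (((1 + t : ℝ) : ℝ) : ℂ) • (star a * a) + (((1 + t⁻¹ : ℝ) : ℝ) : ℂ) • (star b * b) := by
    have c1 : (s : ℂ) * (s : ℂ) = (t : ℂ) := by rw [← Complex.ofReal_mul, hss]
    have c2 : ((s⁻¹ : ℝ) : ℂ) * ((s⁻¹ : ℝ) : ℂ) = ((t⁻¹ : ℝ) : ℂ) := by
      rw [← Complex.ofReal_mul, ← mul_inv, hss]
    have c3 : (s : ℂ) * ((s⁻¹ : ℝ) : ℂ) = 1 := by
      rw [← Complex.ofReal_mul, mul_inv_cancel₀ hs0.ne', Complex.ofReal_one]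
    have c4 : ((s⁻¹ : ℝ) : ℂ) * (s : ℂ) = 1 := by rw [mul_comm, c3]
    rw [star_sub, star_smul, star_smul, star_add]
    simp only [Complex.star_def, Complex.conj_ofReal, sub_mul, mul_sub, smul_mul_smul_comm, c1, c2,
      c3, c4, add_mul, mul_add, one_smul, Complex.ofReal_add, Complex.ofReal_one, add_smul]
    abel
  have h2 : τ.sq ((s : ℂ) • a - ((s⁻¹ : ℝ) : ℂ) • b) + τ.sq (a + b) =
      (1 + t) * τ.sq a + (1 + t⁻¹) * τ.sq b := by
    unfold sq
    rw [← Complex.add_re, ← map_add, e, map_add, map_smul, map_smul, smul_eq_mul, smul_eq_mul,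
      Complex.add_re, Complex.re_ofReal_mul, Complex.re_ofReal_mul]
  linarith

theorem sqrt_sq_add_le (a b : A) :
    Real.sqrt (τ.sq (a + b)) ≤ Real.sqrt (τ.sq a) + Real.sqrt (τ.sq b) := by
  refine le_of_forall_pos_le_add fun ε hε => ?_
  set p := Real.sqrt (τ.sq a) with hp
  set q := Real.sqrt (τ.sq b) with hq
  have hp0 : 0 ≤ p := Real.sqrt_nonneg _
  have hq0 : 0 ≤ q := Real.sqrt_nonneg _
  have hpa : τ.sq a = p ^ 2 := (Real.sq_sqrt (τ.sq_nonneg a)).symm
  have hqb : τ.sq b = q ^ 2 := (Real.sq_sqrt (τ.sq_nonneg b)).symm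
  set P := p + ε / 2 with hP
  set Q := q + ε / 2 with hQ
  have hP0 : 0 < P := by linarith
  have hQ0 : 0 < Q := by linarith
  have h := τ.sq_add_le a b (t := Q / P) (div_pos hQ0 hP0)
  have h1 : τ.sq (a + b) ≤ (P + Q) ^ 2 := by
    refine h.trans ?_
    have e : (1 + Q / P) * P ^ 2 + (1 + (Q / P)⁻¹) * Q ^ 2 = (P + Q) ^ 2 := by
      field_simp
      ring
    rw [← e, hpa, hqb]
    have : p ^ 2 ≤ P ^ 2 := by
      have : p ≤ P := by linarith
      gcongr
    have : q ^ 2 ≤ Q ^ 2 := by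
      have : q ≤ Q := by linarith
      gcongr
    gcongr
  calc Real.sqrt (τ.sq (a + b)) ≤ Real.sqrt ((P + Q) ^ 2) := Real.sqrt_le_sqrt h1
    _ = P + Q := Real.sqrt_sq (by linarith)
    _ = p + q + ε := by rw [hP, hQ]; ring

/-- A tracial state is contractive. -/
theorem norm_le (a : A) : ‖τ a‖ ≤ ‖a‖ := by
  -- `0 ≤ τ((a - τ(a))^* (a - τ(a)))`
  have h := τ.sq_nonneg (a - τ a • 1)
  have hst : τ (star a) = star (τ a) := by
    have h1 := τ.eq_sq (a + 1)
    have h2 := τ.eq_sq (a + Complex.I • 1)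
    rw [star_add, star_one] at h1
    have e1 : (star a + 1) * (a + 1) = star a * a + star a + a + 1 := by noncomm_ring
    rw [e1, map_add, map_add, map_add, τ.map_one, τ.eq_sq] at h1
    have e2 : star (a + Complex.I • (1 : A)) * (a + Complex.I • 1) =
        star a * a + Complex.I • star a - Complex.I • a + 1 := by
      rw [star_add, star_smul, star_one, Complex.star_def, Complex.conj_I]
      simp only [add_mul, mul_add, smul_mul_assoc, mul_smul_comm, one_mul, mul_one, smul_add,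
        smul_smul, neg_smul, smul_neg, neg_mul, neg_neg, Complex.I_mul_I, one_smul]
      abel
    rw [e2, map_add, map_sub, map_add, map_smul, map_smul, τ.map_one, τ.eq_sq] at h2
    have i1 := congrArg Complex.im h1
    have i2 := congrArg Complex.im h2
    simp at i1 i2
    refine Complex.ext ?_ ?_
    · simp only [Complex.star_def, Complex.conj_re]
      linarith
    · simp only [Complex.star_def, Complex.conj_im]
      linarith
  have e : star (a - τ a • (1 : A)) * (a - τ a • 1) =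
      star a * a - τ a • star a - star (τ a) • a + (star (τ a) * τ a) • 1 := by
    rw [star_sub, star_smul, star_one]
    simp only [sub_mul, mul_sub, smul_mul_assoc, mul_smul_comm, one_mul, mul_one, smul_sub,
      smul_smul]
    rw [mul_comm (τ a) (star (τ a))]
    abel
  have h2 : τ.sq (a - τ a • 1) = τ.sq a - ‖τ a‖ ^ 2 := by
    unfold sq
    rw [e, map_add, map_sub, map_sub, map_smul, map_smul, map_smul, τ.map_one, hst]
    simp only [smul_eq_mul, mul_one]
    have : (τ a * star (τ a)) = ((‖τ a‖ ^ 2 : ℝ) : ℂ) := by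
      rw [Complex.star_def, Complex.mul_conj, Complex.normSq_eq_norm_sq]
    rw [mul_comm (star (τ a)) (τ a), this]
    simp only [Complex.sub_re, Complex.add_re, Complex.ofReal_re]
    ring
  rw [h2] at h
  have h3 := τ.sq_le a
  have h4 : ‖τ a‖ ^ 2 ≤ ‖a‖ ^ 2 := by linarith
  exact (pow_le_pow_iff_left₀ (norm_nonneg _) (norm_nonneg _) two_ne_zero).1 h4

end Order

end TracialState

section TwoNorm

variable {A : Type*} [CStarAlgebra A]

theorem bddAbove_sqrt (a : A) :
    BddAbove (Set.range fun τ : TracialState A => Real.sqrt (τ (star a * a)).re) := by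
  refine ⟨‖a‖, ?_⟩
  rintro _ ⟨τ, rfl⟩
  change Real.sqrt (τ.sq a) ≤ ‖a‖
  rw [Real.sqrt_le_left (norm_nonneg a)]
  exact τ.sq_le a

theorem sqrt_le_twoNorm (τ : TracialState A) (a : A) : Real.sqrt (τ.sq a) ≤ twoNorm a :=
  le_ciSup (bddAbove_sqrt a) τ

theorem twoNorm_nonneg (a : A) : 0 ≤ twoNorm a :=
  Real.iSup_nonneg fun _ => Real.sqrt_nonneg _

theorem sq_le_twoNorm (τ : TracialState A) (a : A) : τ.sq a ≤ twoNorm a ^ 2 := by
  have h := sqrt_le_twoNorm τ a
  calc τ.sq a = Real.sqrt (τ.sq a) ^ 2 := (Real.sq_sqrt (τ.sq_nonneg a)).symm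
    _ ≤ twoNorm a ^ 2 := by gcongr

theorem twoNorm_le {a : A} {C : ℝ} (hC : 0 ≤ C)
    (h : ∀ τ : TracialState A, Real.sqrt (τ.sq a) ≤ C) : twoNorm a ≤ C :=
  Real.iSup_le h hC

theorem twoNorm_le_of_sq {a : A} {C : ℝ} (hC : 0 ≤ C)
    (h : ∀ τ : TracialState A, τ.sq a ≤ C ^ 2) : twoNorm a ≤ C :=
  twoNorm_le hC fun τ => (Real.sqrt_le_left hC).2 (h τ)

theorem twoNorm_le_norm (a : A) : twoNorm a ≤ ‖a‖ :=
  twoNorm_le_of_sq (norm_nonneg a) fun τ => τ.sq_le a

theorem twoNorm_add_le (a b : A) : twoNorm (a + b) ≤ twoNorm a + twoNorm b := by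
  refine twoNorm_le (add_nonneg (twoNorm_nonneg a) (twoNorm_nonneg b)) fun τ => ?_
  exact (τ.sqrt_sq_add_le a b).trans (add_le_add (sqrt_le_twoNorm τ a) (sqrt_le_twoNorm τ b))

theorem twoNorm_star (a : A) : twoNorm (star a) = twoNorm a := by
  unfold twoNorm
  congr 1
  funext τ
  exact congrArg Real.sqrt (τ.sq_star a)

theorem twoNorm_neg (a : A) : twoNorm (-a) = twoNorm a := by
  unfold twoNorm
  congr 1
  funext τ
  exact congrArg Real.sqrt (τ.sq_neg a)

theorem twoNorm_sub_rev (a b : A) : twoNorm (a - b) = twoNorm (b - a) := by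
  rw [← twoNorm_neg, neg_sub]

theorem twoNorm_zero : twoNorm (0 : A) = 0 := by
  refine le_antisymm ?_ (twoNorm_nonneg _)
  simpa using twoNorm_le_norm (0 : A)

theorem twoNorm_mul_left (a b : A) : twoNorm (a * b) ≤ ‖a‖ * twoNorm b := by
  refine twoNorm_le_of_sq (mul_nonneg (norm_nonneg a) (twoNorm_nonneg b)) fun τ => ?_
  refine (τ.sq_mul_le a b).trans ?_
  rw [mul_pow]
  gcongr
  exact sq_le_twoNorm τ b

theorem twoNorm_mul_right (a b : A) : twoNorm (a * b) ≤ twoNorm a * ‖b‖ := by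
  have h := twoNorm_mul_left (star b) (star a)
  rwa [← star_mul, twoNorm_star, twoNorm_star, norm_star, mul_comm] at h

theorem twoNorm_smul (c : ℂ) (a : A) : twoNorm (c • a) ≤ ‖c‖ * twoNorm a := by
  refine twoNorm_le_of_sq (mul_nonneg (norm_nonneg c) (twoNorm_nonneg a)) fun τ => ?_
  rw [τ.sq_smul, mul_pow]
  gcongr
  exact sq_le_twoNorm τ a

theorem twoNorm_tri (a b c : A) : twoNorm (a - c) ≤ twoNorm (a - b) + twoNorm (b - c) := by
  have : a - c = (a - b) + (b - c) := by abel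
  rw [this]
  exact twoNorm_add_le _ _

theorem abs_twoNorm_sub_le (a b : A) : |twoNorm a - twoNorm b| ≤ twoNorm (a - b) := by
  rw [abs_le]
  have h1 := twoNorm_add_le (a - b) b
  have h2 := twoNorm_add_le (b - a) a
  rw [sub_add_cancel] at h1 h2
  rw [twoNorm_sub_rev] at h2
  constructor <;> linarith

end TwoNorm

end TraceProblem
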